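import Mathlib
import Pool.Agent.MP_36f78e_lc.H24.Cl.Defs

/-!
A verifier and a cloner with access to a classical oracle.
-/

namespace Pool.Agent.MP_36f78e_lc.H75C

open Pool.Agent.MP_36f78e_lc.H24.Cl Matrix

/-- The number of low bits of a block, logarithmic in the input length `n`. -/
def lg (n : ℕ) : ℕ := 2 * Nat.log 2 n + 8

/-- The `n * n` qubits of a block: the high ones and the low ones. -/
abbrev Sy (n : ℕ) : Type := Fin (n * n - lg n) ⊕ Fin (lg n)

/-- The blocks of the witness. -/
abbrev Bl (n : ℕ) : Type := Fin ((3 * n + 11) * 2 ^ lg n)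

/-- The qubits of the witness. -/
abbrev Wit (n : ℕ) : Type := Bl n × Sy n

/-- The qubits of the label register. -/
abbrev Lab (n : ℕ) : Type := Fin 2 × Sy n

/-- The qubits of the work register. -/
abbrev Wk (n : ℕ) : Type := Fin (n * 2 ^ lg n)

/-- All wires: witness, label, work register, copy of the witness, and two single wires. -/
abbrev Wire (n : ℕ) : Type := (Wit n ⊕ Lab n) ⊕ Wk n ⊕ Wit n ⊕ Fin 2

/-- The names of the tables that the oracle holds for inputs of length `n`. -/
abbrev Name (n : ℕ) : Type := Wk n ⊕ (Wit n ⊕ Lab n) ⊕ ((Bl n × Fin (lg n)) × Lab n) ⊕ Unit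

/-- The wires of the work register. -/
def wk {n : ℕ} (k : Wk n) : Wire n := Sum.inr (Sum.inl k)

/-- The wires of the copy. -/
def cp {n : ℕ} (a : Wit n) : Wire n := Sum.inr (Sum.inr (Sum.inl a))

/-- The two single wires: `0` is used for padding, `1` is the output. -/
def sw (n : ℕ) (k : Fin 2) : Wire n := Sum.inr (Sum.inr (Sum.inr k))

/-- A Hadamard gate on each qubit. -/
noncomputable def had (β : Type) [Fintype β] : Matrix (β → Bool) (β → Bool) ℂ :=
  fun x y => ∏ i, (if x i = true ∧ y i = true then -1 else 1) / (√2 : ℝ)

/-- The zero string minus the uniform superposition of the other strings of length `d`. -/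
noncomputable def dir {d : ℕ} (a : Fin d → Bool) : ℂ :=
  if a = fun _ => false then 1 else -1 / (√(2 ^ d - 1) : ℝ)

/-- The reflection on `d` qubits along `dir`. -/
noncomputable def refl (d : ℕ) : Matrix (Fin d → Bool) (Fin d → Bool) ℂ :=
  fun a b => (if a = b then 1 else 0) - dir a * dir b

/-- In each block, Hadamard gates on the high qubits and the reflection on the low qubits. -/
noncomputable def prep (n : ℕ) : Matrix (Wit n → Bool) (Wit n → Bool) ℂ := fun x y =>
  ∏ i, had _ (fun k => x (i, Sum.inl k)) (fun k => y (i, Sum.inl k)) *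
    refl _ (fun k => x (i, Sum.inr k)) (fun k => y (i, Sum.inr k))

open Classical in
/-- The matrix `U` on the wires `f b`, the identity on the other wires. -/
noncomputable def on {α β : Type} (f : β → α) (U : Matrix (β → Bool) (β → Bool) ℂ) : Gate α :=
  Sum.inl fun x y => if ∀ a, (∀ b, f b ≠ a) → x a = y a then U (x ∘ f) (y ∘ f) else 0

/-- The list of all values of `f`. -/
def all {β γ : Type} [FinEnum β] (f : β → γ) : List γ := (FinEnum.toList β).map f

/-- An oracle call on the wires `l` with answer wire `t`.  The input is padded to a length that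
encodes `n`, the name of the table, and the length of `l`. -/
def call {n : ℕ} (ν : Name n) (l : List (Wire n)) (t : Wire n) : Gate (Wire n) :=
  Sum.inr (l ++ List.replicate
    (Nat.pair (Nat.pair n (FinEnum.equiv ν)) l.length - l.length) (sw n 0), t)

/-- Hadamard gates on witness and label, calls from these wires to the work register and back,
Hadamard gates on the work register. -/
noncomputable def fwd (n : ℕ) : List (Gate (Wire n)) :=
  on Sum.inl (had _) :: (all (fun k => call (Sum.inl k) (all Sum.inl) (wk k)) ++
    all (fun a => call (Sum.inr (Sum.inl a)) (all wk) (Sum.inl a)) ++ [on wk (had _)])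

/-- A call on the work register with answer wire `t`. -/
def ask {n : ℕ} (t : Wire n) : Gate (Wire n) := call (Sum.inr (Sum.inr (Sum.inr ()))) (all wk) t

/-- Calls from the high qubits of one block of the copy to the label register. -/
def load {n : ℕ} (c : Bl n × Fin (lg n)) : List (Gate (Wire n)) :=
  all fun a => call (Sum.inr (Sum.inr (Sum.inl (c, a)))) (all fun k => cp (c.1, Sum.inl k))
    (Sum.inl (Sum.inr a))

/-- The verifier. -/
noncomputable def verifier (n : ℕ) : List (Gate (Wire n)) := fwd n ++ [ask (sw n 1)]

/-- The cloner: prepare the copy, then correct each of its low qubits. -/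
noncomputable def cloner (n : ℕ) : List (Gate (Wire n)) :=
  on cp (prep n) :: (all fun c =>
    load c ++ fwd n ++ [ask (cp (c.1, Sum.inr c.2))] ++ (fwd n).reverse ++ load c).flatten

/-- Matrices are unitary, the answer wire of a call is not an input wire, and the number of gates
and the lengths of the calls are at most `N`. -/
def Valid {α : Type} [Fintype α] [DecidableEq α] (N : ℕ) (gs : List (Gate α)) : Prop :=
  gs.length ≤ N ∧ (∀ U, Sum.inl U ∈ gs → U ∈ unitaryGroup (α → Bool) ℂ) ∧
    ∀ l t, Sum.inr (l, t) ∈ gs → t ∉ l ∧ l.length ≤ N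

/-- The subset state of `S`. -/
noncomputable def unif {β : Type} [DecidableEq β] (S : Finset β) : β → ℂ :=
  fun y => if y ∈ S then 1 / (√S.card : ℝ) else 0

/-- The final amplitudes: the witness is `w`, the other wires start in state zero, and the gates
are applied in the order of the list. -/
noncomputable def final {n : ℕ} (A : List Bool → Bool) (gs : List (Gate (Wire n)))
    (w : (Wit n → Bool) → ℂ) : (Wire n → Bool) → ℂ :=
  gs.foldl (fun v g => act A g v) fun y =>
    if (∀ a, y (Sum.inl (Sum.inr a)) = false) ∧ ∀ a, y (Sum.inr a) = false then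
      w fun a => y (Sum.inl (Sum.inl a))
    else 0

/-- The probability that the verifier accepts `w`. -/
noncomputable def accept {n : ℕ} (A : List Bool → Bool) (w : (Wit n → Bool) → ℂ) : ℝ :=
  ∑ y with y (sw n 1) = true, ‖final A (verifier n) w y‖ ^ 2

/-- The fidelity with two copies of `w` of the state that the cloner, started on `w`, leaves on
the witness and copy registers; the other wires are traced out. -/
noncomputable def fidelity {n : ℕ} (A : List Bool → Bool) (w : (Wit n → Bool) → ℂ) : ℝ :=
  ∑ a : Lab n → Bool, ∑ e : Wk n → Bool, ∑ b : Fin 2 → Bool,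
    ‖∑ x, ∑ x', star (w x) * star (w x') *
      final A (cloner n) w (Sum.elim (Sum.elim x a) (Sum.elim e (Sum.elim x' b)))‖ ^ 2

end Pool.Agent.MP_36f78e_lc.H75C
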