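import Mathlib
import Pool.Agent.MP_36f78e_lc.H24.Cl.Test
import Pool.Agent.MP_36f78e_lc.H75C.Defs

/-!
General facts on gates.
-/

set_option linter.unusedSectionVars false

namespace Pool.Agent.MP_36f78e_lc.H75C

open Finset Matrix Pool.Agent.MP_36f78e_lc.H24 Pool.Agent.MP_36f78e_lc.H24.Cl

section On

variable {α β : Type} [Fintype α] [DecidableEq α] [Fintype β] [DecidableEq β] {f : β → α}

open Classical in
/-- The matrix of a gate on some of the wires. -/
noncomputable def onM (f : β → α) (U : Matrix (β → Bool) (β → Bool) ℂ) :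
    Matrix (α → Bool) (α → Bool) ℂ :=
  fun x y => if ∀ a, (∀ b, f b ≠ a) → x a = y a then U (x ∘ f) (y ∘ f) else 0

lemma on_eq (f : β → α) (U : Matrix (β → Bool) (β → Bool) ℂ) : on f U = Sum.inl (onM f U) := by
  unfold on onM
  congr!

lemma extend_off (c : β → Bool) (y : α → Bool) {a : α} (h : ∀ b, f b ≠ a) :
    Function.extend f c y a = y a :=
  Function.extend_apply' _ _ _ fun ⟨b, hb⟩ => h b hb

lemma onM_mulVec (hf : Function.Injective f) (U : Matrix (β → Bool) (β → Bool) ℂ)
    (v : (α → Bool) → ℂ) (y : α → Bool) :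
    (onM f U *ᵥ v) y = ∑ c, U (y ∘ f) c * v (Function.extend f c y) := by
  have hinj : Function.Injective fun c : β → Bool => Function.extend f c y := fun c c' h => by
    funext b
    simpa [hf.extend_apply] using congrFun h (f b)
  rw [mulVec, dotProduct, ← sum_subset (subset_univ (univ.image fun c : β → Bool =>
    Function.extend f c y)), sum_image hinj.injOn]
  · refine sum_congr rfl fun c _ => ?_
    rw [onM, if_pos fun a ha => (extend_off c y ha).symm, Function.extend_comp hf]
  · intro x _ hx
    rw [onM, if_neg, zero_mul]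
    intro h
    refine hx (mem_image.2 ⟨x ∘ f, mem_univ _, funext fun a => ?_⟩)
    by_cases ha : ∃ b, f b = a
    · obtain ⟨b, rfl⟩ := ha
      rw [hf.extend_apply]; rfl
    · push Not at ha
      rw [extend_off _ _ ha, h a ha]

lemma onM_mul (hf : Function.Injective f) (U U' : Matrix (β → Bool) (β → Bool) ℂ) :
    onM f U * onM f U' = onM f (U * U') := by
  ext x z
  refine (onM_mulVec hf U (fun y => onM f U' y z) x).trans ?_
  simp only [onM, Function.extend_comp hf]
  by_cases h : ∀ a, (∀ b, f b ≠ a) → x a = z a
  · rw [if_pos h, mul_apply]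
    exact sum_congr rfl fun c _ => by
      rw [if_pos fun a ha => (extend_off c x ha).trans (h a ha)]
  · rw [if_neg h]
    exact sum_eq_zero fun c _ => by
      rw [if_neg fun h' => h fun a ha => (extend_off c x ha).symm.trans (h' a ha), mul_zero]

lemma onM_one : onM f (1 : Matrix (β → Bool) (β → Bool) ℂ) = 1 := by
  ext x y
  rw [onM, one_apply, one_apply]
  by_cases h : x = y
  · simp [h]
  · rw [if_neg h]
    split_ifs with h1 h2
    · refine absurd (funext fun a => ?_) h
      by_cases ha : ∃ b, f b = a
      · obtain ⟨b, rfl⟩ := ha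
        exact congrFun h2 b
      · push Not at ha
        exact h1 a ha
    · rfl
    · rfl

lemma onM_star (U : Matrix (β → Bool) (β → Bool) ℂ) : star (onM f U) = onM f (star U) := by
  ext x y
  simp only [star_apply, onM, eq_comm (a := x _)]
  split_ifs <;> simp

lemma on_gv (hf : Function.Injective f) {U : Matrix (β → Bool) (β → Bool) ℂ}
    (hU : U ∈ unitaryGroup (β → Bool) ℂ) : GV (on f U) := by
  rw [on_eq]
  change onM f U ∈ unitaryGroup (α → Bool) ℂ
  rw [mem_unitaryGroup_iff] at hU ⊢
  rw [onM_star, onM_mul hf, hU, onM_one]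

lemma on_act (hf : Function.Injective f) (A : List Bool → Bool)
    (U : Matrix (β → Bool) (β → Bool) ℂ) (v : (α → Bool) → ℂ) (y : α → Bool) :
    act A (on f U) v y = ∑ c, U (y ∘ f) c * v (Function.extend f c y) := by
  rw [on_eq]
  exact onM_mulVec hf U v y

/-- A gate that is its own inverse. -/
def Inv (g : Gate α) : Prop := ∀ A v, act A g (act A g v) = v

lemma on_inv (hf : Function.Injective f) {U : Matrix (β → Bool) (β → Bool) ℂ} (hU : U * U = 1) :
    Inv (on f U) := fun A v => by
  rw [on_eq]
  change onM f U *ᵥ (onM f U *ᵥ v) = v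
  rw [mulVec_mulVec, onM_mul hf, hU, onM_one, one_mulVec]

lemma call_inv {l : List α} {t : α} (h : t ∉ l) : Inv (Sum.inr (l, t) : Gate α) := fun A v => by
  funext y
  simp only [act, map_update h, Function.update_self, Function.update_idem, Bool.xor_assoc,
    Bool.xor_self, Bool.xor_false, Function.update_eq_self]

lemma run_append (A : List Bool → Bool) (gs gs' : List (Gate α)) (v : (α → Bool) → ℂ) :
    run A (gs ++ gs') v = run A gs' (run A gs v) := List.foldl_append

lemma run_one (A : List Bool → Bool) (g : Gate α) (v : (α → Bool) → ℂ) :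
    run A [g] v = act A g v := rfl

lemma run_reverse (A : List Bool → Bool) (gs : List (Gate α)) (h : ∀ g ∈ gs, Inv g)
    (v : (α → Bool) → ℂ) : run A gs.reverse (run A gs v) = v := by
  induction gs generalizing v with
  | nil => rfl
  | cons g gs ih =>
    rw [List.reverse_cons, run_append, run_one, run_cons,
      ih fun g hg => h g (List.mem_cons_of_mem _ hg), h g List.mem_cons_self]

lemma run_calls (A : List Bool → Bool) {tgt : β → α} (ht : Function.Injective tgt)
    (src : β → List α) (h : ∀ b b', tgt b ∉ src b') (l : List β) (hl : l.Nodup)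
    (v : (α → Bool) → ℂ) (y : α → Bool) :
    run A (l.map fun b => Sum.inr (src b, tgt b)) v y = v (Function.extend tgt
      (fun b => if b ∈ l then xor (y (tgt b)) (A ((src b).map y)) else y (tgt b)) y) := by
  induction l generalizing v with
  | nil =>
    simp only [List.map_nil, run, List.foldl_nil, List.not_mem_nil, if_false]
    congr 1
    funext a
    by_cases ha : ∃ b, tgt b = a
    · obtain ⟨b, rfl⟩ := ha
      rw [ht.extend_apply]
    · push Not at ha
      rw [extend_off _ _ ha]
  | cons b l ih =>
    rw [List.nodup_cons] at hl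
    rw [List.map_cons, run_cons, ih hl.2]
    simp only [act]
    congr 1
    rw [List.map_congr_left (g := y) fun a ha =>
      extend_off _ _ fun b' (e : tgt b' = a) => h b' b (e ▸ ha)]
    funext a
    by_cases ha : ∃ b, tgt b = a
    · obtain ⟨b', rfl⟩ := ha
      by_cases e : b' = b
      · subst e
        simp [ht.extend_apply, hl.1]
      · simp [ht.extend_apply, Function.update_of_ne (ht.ne e), e]
    · push Not at ha
      rw [Function.update_of_ne (ha b).symm, extend_off _ _ ha, extend_off _ _ ha]

lemma run_local {A A' : List Bool → Bool} (gs : List (Gate α))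
    (h : ∀ l t, Sum.inr (l, t) ∈ gs → ∀ s : List Bool, s.length = l.length → A s = A' s)
    (v : (α → Bool) → ℂ) : run A gs v = run A' gs v := by
  induction gs generalizing v with
  | nil => rfl
  | cons g gs ih =>
    rw [run_cons, run_cons, ih fun l t hg => h l t (List.mem_cons_of_mem _ hg)]
    congr 1
    rcases g with U | ⟨l, t⟩
    · rfl
    · funext y
      simp only [act]
      rw [h l t List.mem_cons_self _ (List.length_map _)]

end On

section Had

variable {β γ : Type} [Fintype β] [DecidableEq β] [Fintype γ] [DecidableEq γ]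

lemma had_symm (x y : β → Bool) : had β x y = had β y x := by
  simp only [had, and_comm]

lemma had_star (x y : β → Bool) : star (had β x y) = had β x y := by
  rw [had, star_prod]
  refine prod_congr rfl fun i _ => ?_
  rw [star_div₀, Complex.star_def, Complex.conj_ofReal]
  split_ifs <;> simp

lemma had_orth (x y : β → Bool) : ∑ z, had β x z * had β z y = if x = y then 1 else 0 := by
  simp only [had, ← prod_mul_distrib]
  rw [← Fintype.piFinset_univ, ← prod_univ_sum (fun _ : β => (univ : Finset Bool))
    fun i b => ((if x i = true ∧ b = true then -1 else 1) / ((√2 : ℝ) : ℂ) *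
      ((if b = true ∧ y i = true then -1 else 1) / ((√2 : ℝ) : ℂ)))]
  have e2 : ∀ i, ∑ b : Bool, ((if x i = true ∧ b = true then -1 else 1) / ((√2 : ℝ) : ℂ) *
      ((if b = true ∧ y i = true then -1 else 1) / ((√2 : ℝ) : ℂ))) =
      if x i = y i then 1 else 0 := fun i => by
    simp only [div_mul_div_comm, sqrt_two_sq]
    cases x i <;> cases y i <;> simp <;> norm_num
  simp only [e2]
  rw [prod_ite_zero]
  simp [funext_iff]

lemma had_mul : had β * had β = 1 := by
  ext x y
  rw [mul_apply, had_orth, one_apply]

lemma had_unitary : had β ∈ unitaryGroup (β → Bool) ℂ := by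
  rw [mem_unitaryGroup_iff]
  have : star (had β) = had β := by
    ext x y
    rw [star_apply, had_star, had_symm]
  rw [this, had_mul]

lemma norm_had_sq (x y : β → Bool) : ‖had β x y‖ ^ 2 = 1 / 2 ^ Fintype.card β := by
  have e : ∀ i, ‖((if x i = true ∧ y i = true then -1 else 1) / ((√2 : ℝ) : ℂ))‖ ^ 2 = 1 / 2 :=
    fun i => by
      rw [norm_div, div_pow, Complex.norm_real, Real.norm_eq_abs, sq_abs,
        Real.sq_sqrt (by norm_num)]
      split_ifs <;> simp
  rw [had, norm_prod, ← prod_pow]
  simp only [e, prod_const, card_univ, one_div, inv_pow]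

lemma nsq_had (v : (β → Bool) → ℂ) : nsq (had β *ᵥ v) = nsq v := by
  rw [← nr_sq, nr_unitary _ (mem_unitaryGroup_iff'.1 had_unitary), nr_sq]

lemma had_had (v : (β → Bool) → ℂ) : had β *ᵥ (had β *ᵥ v) = v := by
  rw [mulVec_mulVec, had_mul, one_mulVec]

lemma had_elim (x x' : β → Bool) (y y' : γ → Bool) :
    had (β ⊕ γ) (Sum.elim x y) (Sum.elim x' y') = had β x x' * had γ y y' := by
  rw [had, Fintype.prod_sum_type]
  rfl

lemma had_prod (x y : β × γ → Bool) :
    had (β × γ) x y = ∏ i, had γ (fun k => x (i, k)) fun k => y (i, k) := by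
  simp only [had, Fintype.prod_prod_type]

lemma sum_elim {M : Type} [AddCommMonoid M] (f : (β ⊕ γ → Bool) → M) :
    ∑ y, f y = ∑ x : β → Bool, ∑ a : γ → Bool, f (Sum.elim x a) := by
  rw [← (Equiv.sumArrowEquivProdArrow β γ Bool).symm.sum_comp, Fintype.sum_prod_type]
  rfl

lemma sum_blocks {M : Type} [CommSemiring M] (f : β → (γ → Bool) → M) :
    ∑ x : β × γ → Bool, ∏ i, f i (fun k => x (i, k)) = ∏ i, ∑ b, f i b := by
  rw [prod_univ_sum, Fintype.piFinset_univ, ← (Equiv.curry β γ Bool).sum_comp]
  rfl

lemma elim_eta (y : β ⊕ γ → Bool) :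
    Sum.elim (fun a => y (Sum.inl a)) (fun a => y (Sum.inr a)) = y := by
  funext a; cases a <;> rfl

end Had

end Pool.Agent.MP_36f78e_lc.H75C
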