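import Mathlib
import Pool.Agent.MP_36f78e_lc.H75C.Wire

/-!
The map from a state on the symbols to a state on the messages of a linear code.
-/

set_option linter.unusedSectionVars false

namespace Pool.Agent.MP_36f78e_lc.H75C

open Finset Matrix Pool.Agent.MP_36f78e_lc.H24 Pool.Agent.MP_36f78e_lc.H24.Cl

/-- The sum of two bit strings. -/
def xr {β : Type} (a b : β → Bool) : β → Bool := fun i => xor (a i) (b i)

/-- The zero string. -/
def zr {β : Type} : β → Bool := fun _ => false

lemma xr_self {β : Type} (a : β → Bool) : xr a a = zr := by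
  funext i; simp [xr, zr]

lemma xr_eq_zr {β : Type} (a b : β → Bool) : xr a b = zr ↔ a = b := by
  simp only [funext_iff, xr, zr]
  exact forall_congr' fun i => by cases a i <;> cases b i <;> simp

lemma xr_swap {β : Type} (a b c : β → Bool) : xr a b = c ↔ a = xr c b := by
  simp only [funext_iff, xr]
  exact forall_congr' fun i => by cases a i <;> cases b i <;> cases c i <;> simp

section

variable {X E R : Type} [Fintype X] [DecidableEq X] [Fintype E] [DecidableEq E] [Fintype R]
  [DecidableEq R]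

/-- A basis vector. -/
def pt (x : X → Bool) (e : E → Bool) (r : R → Bool) : X ⊕ E ⊕ R → Bool :=
  Sum.elim x (Sum.elim e r)

lemma sum_pt {M : Type} [AddCommMonoid M] (f : (X ⊕ E ⊕ R → Bool) → M) :
    ∑ y, f y = ∑ x, ∑ e, ∑ r, f (pt x e r) := by
  rw [sum_elim]
  exact sum_congr rfl fun x _ => sum_elim _

lemma pt_eta (y : X ⊕ E ⊕ R → Bool) : ∃ x e r, y = pt x e r :=
  ⟨fun a => y (Sum.inl a), fun a => y (Sum.inr (Sum.inl a)), fun a => y (Sum.inr (Sum.inr a)), by
    funext a
    rcases a with a | a | a <;> rfl⟩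

variable (x : X → Bool) (e : E → Bool) (r : R → Bool)

lemma ext_X (c : X → Bool) : Function.extend Sum.inl c (pt x e r) = pt c e r := by
  funext a
  rcases a with a | a
  · exact Sum.inl_injective.extend_apply _ _ _
  · exact extend_off _ _ (by simp)

lemma inj_E : Function.Injective fun k : E => (Sum.inr (Sum.inl k) : X ⊕ E ⊕ R) :=
  Sum.inr_injective.comp Sum.inl_injective

lemma ext_E (c : E → Bool) :
    Function.extend (fun k : E => Sum.inr (Sum.inl k)) c (pt x e r) = pt x c r := by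
  funext a
  rcases a with a | a | a
  · exact extend_off _ _ (by simp)
  · exact inj_E.extend_apply _ _ _
  · exact extend_off _ _ (by simp)

lemma upd_R (t : R) (b : Bool) :
    Function.update (pt x e r) (Sum.inr (Sum.inr t)) b = pt x e (Function.update r t b) := by
  funext a
  rcases a with a | a | a
  · exact Function.update_of_ne (by simp) _ _
  · exact Function.update_of_ne (by simp) _ _
  · by_cases h : a = t
    · subst h
      rw [Function.update_self]
      exact (Function.update_self _ _ r).symm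
    · rw [Function.update_of_ne fun e => h (Sum.inr.inj (Sum.inr.inj e))]
      exact (Function.update_of_ne h _ _).symm

/-- A vector whose middle register is zero. -/
def lift (g : (R → Bool) → (X → Bool) → ℂ) : (X ⊕ E ⊕ R → Bool) → ℂ := fun y =>
  if (fun k => y (Sum.inr (Sum.inl k))) = zr then
    g (fun a => y (Sum.inr (Sum.inr a))) fun a => y (Sum.inl a)
  else 0

lemma lift_pt (g : (R → Bool) → (X → Bool) → ℂ) :
    lift g (pt x e r) = if e = zr then g r x else 0 := rfl

lemma nsq_lift (g : (R → Bool) → (X → Bool) → ℂ) :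
    nsq (lift (E := E) g) = ∑ r, nsq (g r) := by
  unfold nsq
  rw [sum_pt, sum_comm' (t' := univ) (s' := fun _ => univ) (by simp)]
  rw [sum_eq_single zr (fun e _ he => by simp [lift_pt, he]) (by simp), sum_comm]
  simp [lift_pt]

/-- The properties of the forward map. -/
structure Fw (F : ((X ⊕ E ⊕ R → Bool) → ℂ) → (X ⊕ E ⊕ R → Bool) → ℂ)
    (enc : (X → Bool) → E → Bool) (dec : (E → Bool) → X → Bool) : Prop where
  sub : ∀ u v, F (u - v) = F u - F v
  iso : ∀ v, nr (F v) = nr v
  val : ∀ g x z r, F (lift g) (pt x z r) =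
    ∑ c, if x = xr c (dec (enc c)) then had E z (enc c) * (had X *ᵥ g r) c else 0

variable {enc : (X → Bool) → E → Bool} {dec : (E → Bool) → X → Bool}

lemma fw_val (A : List Bool → Bool) (gE gX : List (Gate (X ⊕ E ⊕ R)))
    (hE : ∀ v x e r, run A gE v (pt x e r) = v (pt x (xr e (enc x)) r))
    (hX : ∀ v x e r, run A gX v (pt x e r) = v (pt (xr x (dec e)) e r))
    (g : (R → Bool) → (X → Bool) → ℂ) (z : E → Bool) :
    run A (on Sum.inl (had X) :: (gE ++ gX ++ [on (fun k => Sum.inr (Sum.inl k)) (had E)]))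
      (lift g) (pt x z r) =
      ∑ c, if x = xr c (dec (enc c)) then had E z (enc c) * (had X *ᵥ g r) c else 0 := by
  rw [run_cons, run_append, run_append, run_one, on_act inj_E]
  simp only [ext_E, hX, hE, on_act Sum.inl_injective, ext_X, lift_pt, xr_eq_zr]
  have e1 : ∀ e : E → Bool, had E (pt x z r ∘ fun k => Sum.inr (Sum.inl k)) e *
      ∑ c, had X (pt (xr x (dec e)) (xr e (enc (xr x (dec e)))) r ∘ Sum.inl) c *
        (if e = enc (xr x (dec e)) then g r c else 0) =
      ∑ c, if enc c = e then (if x = xr c (dec (enc c)) then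
        had E z (enc c) * (had X *ᵥ g r) c else 0) else 0 := fun e => by
    symm
    rw [sum_eq_single (xr x (dec e)) (fun c _ hc => ?_) (by simp)]
    · by_cases h : e = enc (xr x (dec e))
      · rw [if_pos h.symm, ← h, if_pos ((xr_swap _ _ _).1 rfl)]
        simp only [↓reduceIte]
        rfl
      · simp [h, Ne.symm h]
    · split_ifs with h1 h2
      · exact absurd ((xr_swap _ _ _).2 (h1 ▸ h2)).symm hc
      · rfl
      · rfl
  rw [sum_congr rfl fun e _ => e1 e, sum_comm]
  simp

variable {F : ((X ⊕ E ⊕ R → Bool) → ℂ) → (X ⊕ E ⊕ R → Bool) → ℂ}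

lemma Fw.low (hF : Fw F enc dec) {p : (E → Bool) → X → Bool} {κ : ℂ}
    (hp : ∀ z c, had E z (enc c) = κ * had X (p z) c) {g : (R → Bool) → (X → Bool) → ℂ}
    (hg : ∀ r c, (had X *ᵥ g r) c ≠ 0 → dec (enc c) = c) (z : E → Bool) :
    F (lift g) (pt x z r) = if x = zr then κ * g r (p z) else 0 := by
  have e : κ * g r (p z) = ∑ c, κ * had X (p z) c * (had X *ᵥ g r) c := by
    nth_rewrite 1 [← had_had (g r)]
    rw [mulVec, dotProduct, mul_sum]
    simp only [mul_assoc]
  rw [hF.val, e]
  split_ifs with h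
  · refine sum_congr rfl fun c _ => ?_
    by_cases hc : (had X *ᵥ g r) c = 0
    · simp [hc]
    · rw [hg r c hc, xr_self, if_pos h, hp]
  · refine sum_eq_zero fun c _ => ?_
    by_cases hc : (had X *ᵥ g r) c = 0
    · simp [hc]
    · rw [hg r c hc, xr_self, if_neg h]

lemma Fw.zero (hF : Fw F enc dec) {g : (R → Bool) → (X → Bool) → ℂ} (hg : g r = 0)
    (z : E → Bool) : F (lift g) (pt x z r) = 0 := by
  simp [hF.val, hg]

lemma Fw.small (hF : Fw F enc dec) (g : (R → Bool) → (X → Bool) → ℂ) (z : E → Bool) :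
    ∑ x, ‖F (lift g) (pt x z r)‖ ^ 2 ≤
      (univ.image dec).card / 2 ^ Fintype.card E * nsq (g r) := by
  rw [← nsq_had, nsq, ← sum_fiberwise univ (fun c => xr c (dec (enc c)))
    fun c => ‖(had X *ᵥ g r) c‖ ^ 2, mul_sum]
  refine sum_le_sum fun x _ => ?_
  rw [hF.val]
  simp only [eq_comm (a := x)]
  rw [← sum_filter]
  set N := univ.filter fun c => xr c (dec (enc c)) = x with hN
  have h1 : N.card ≤ (univ.image dec).card := by
    refine card_le_card_of_injOn (fun c => dec (enc c))
      (fun c _ => mem_coe.2 (mem_image_of_mem _ (mem_univ _))) fun c hc c' hc' h => ?_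
    rw [(xr_swap _ _ _).1 (mem_filter.1 hc).2, (xr_swap c' _ _).1 (mem_filter.1 hc').2]
    exact congrArg _ h
  calc _ ≤ (∑ c ∈ N, ‖had E z (enc c)‖ * ‖(had X *ᵥ g r) c‖) ^ 2 := by
        refine pow_le_pow_left₀ (norm_nonneg _) ((norm_sum_le _ _).trans (le_of_eq ?_)) 2
        simp only [norm_mul]
    _ ≤ (∑ c ∈ N, ‖had E z (enc c)‖ ^ 2) * ∑ c ∈ N, ‖(had X *ᵥ g r) c‖ ^ 2 :=
        sum_mul_sq_le_sq_mul_sq _ _ _
    _ ≤ _ := by
        refine mul_le_mul_of_nonneg_right ?_ (sum_nonneg fun _ _ => sq_nonneg _)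
        simp only [norm_had_sq, sum_const, nsmul_eq_mul, mul_one_div]
        gcongr

lemma Fw.sound (hF : Fw F enc dec) (A : List Bool → Bool) (l : List (X ⊕ E ⊕ R)) {t pad : R}
    (ht : pad ≠ t) (T : Finset (E → Bool))
    (hA : ∀ x z r, r pad = false → A (l.map (pt x z r)) = decide (z ∈ T))
    (g : (R → Bool) → (X → Bool) → ℂ) (hg : ∀ r ≠ zr, g r = 0) :
    ∑ y with y (Sum.inr (Sum.inr t)) = true,
      ‖act A (Sum.inr (l, Sum.inr (Sum.inr t))) (F (lift g)) y‖ ^ 2 ≤
      T.card * ((univ.image dec).card / 2 ^ Fintype.card E * nsq (g zr)) := by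
  rw [sum_filter, sum_pt, sum_comm, ← nsmul_eq_mul, ← sum_const, ← univ_inter T, ← sum_ite_mem]
  refine sum_le_sum fun z _ => ?_
  calc _ ≤ ∑ x, ∑ r, if r = Function.update zr t true then
        (if z ∈ T then ‖F (lift g) (pt x z zr)‖ ^ 2 else 0) else 0 := by
        refine sum_le_sum fun x _ => sum_le_sum fun r _ => ?_
        have e : pt x z r (Sum.inr (Sum.inr t)) = r t := rfl
        simp only [act, upd_R, e]
        by_cases h : r t = true
        swap
        · rw [if_neg h]
          split_ifs <;> positivity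
        rw [if_pos h]
        by_cases h2 : Function.update r t (xor (r t) (A (l.map (pt x z r)))) = zr
        · have h3 : r pad = false := by simpa [zr, ht] using congrFun h2 pad
          have h4 := congrFun h2 t
          rw [hA _ _ _ h3] at h4
          rw [h2, if_pos, if_pos (by simpa [h, zr] using h4)]
          rw [← h2, Function.update_idem, ← h, Function.update_eq_self]
        · rw [hF.zero _ _ (hg _ h2), norm_zero, zero_pow two_ne_zero]
          split_ifs <;> positivity
    _ ≤ _ := by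
        simp only [sum_ite_eq', mem_univ, if_true]
        split_ifs
        · exact hF.small zr g z
        · simp

end

section

variable {P Y E R ι : Type} [Fintype P] [DecidableEq P] [Fintype Y] [DecidableEq Y] [Fintype E]
  [DecidableEq E] [Fintype R] [DecidableEq R] [Fintype ι]

/-- A product vector whose label register is a function of the last register. -/
def tn (a : (R → Bool) → ℂ) (φ : (P → Bool) → ℂ) (lab : (R → Bool) → Y → Bool) (r : R → Bool)
    (x : P ⊕ Y → Bool) : ℂ :=
  a r * φ (fun i => x (Sum.inl i)) * if (fun i => x (Sum.inr i)) = lab r then 1 else 0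

variable (a : (R → Bool) → ℂ) (φ ψ : (P → Bool) → ℂ) (lab : (R → Bool) → Y → Bool)

lemma had_tn (r : R → Bool) (c : P ⊕ Y → Bool) : (had (P ⊕ Y) *ᵥ tn a φ lab r) c =
    a r * (had P *ᵥ φ) (fun i => c (Sum.inl i)) * had Y (fun i => c (Sum.inr i)) (lab r) := by
  nth_rewrite 1 [← elim_eta c]
  rw [mulVec, dotProduct, sum_elim, mulVec, dotProduct, mul_sum, sum_mul]
  refine sum_congr rfl fun x _ => ?_
  rw [sum_eq_single (lab r) (fun y _ hy => by simp [tn, hy]) (by simp), had_elim]
  simp only [tn, Sum.elim_inl, Sum.elim_inr, if_true]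
  ring

lemma nsq_tn (r : R → Bool) : nsq (tn a φ lab r) = ‖a r‖ ^ 2 * nsq φ := by
  simp only [nsq]
  rw [mul_sum, sum_elim]
  refine sum_congr rfl fun x _ => ?_
  rw [sum_eq_single (lab r) (fun y _ hy => by simp [tn, hy]) (by simp)]
  simp [tn, mul_pow]

lemma nr_tn : nr (lift (E := E) (tn a φ lab)) = nr a * nr φ := by
  rw [nr, nr, nr, ← Real.sqrt_mul (nsq_nonneg _), nsq_lift]
  simp only [nsq_tn, ← sum_mul]
  rfl

lemma lift_tn_sub : lift (E := E) (tn a (φ - ψ) lab) = lift (tn a φ lab) - lift (tn a ψ lab) := by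
  funext y
  simp only [lift, tn, Pi.sub_apply]
  split_ifs <;> ring

variable {F : (((P ⊕ Y) ⊕ E ⊕ R → Bool) → ℂ) → ((P ⊕ Y) ⊕ E ⊕ R → Bool) → ℂ}
  {enc : (P ⊕ Y → Bool) → E → Bool} {dec : (E → Bool) → P ⊕ Y → Bool}
  {p : (E → Bool) → P ⊕ Y → Bool} {κ : ℂ} {Low : (P → Bool) → Prop}

/-- The vector `Ψ` vanishes on the bad sets and is close to a vector `Φ` whose Fourier transform,
also after restriction to a bad set, is supported on `Low`. -/
structure Split (Low : (P → Bool) → Prop) (Bad : ι → Finset (P → Bool)) (Ψ Φ : (P → Bool) → ℂ)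
    (ε : ℝ) : Prop where
  pos : 0 ≤ ε
  low : ∀ c, (had P *ᵥ Φ) c ≠ 0 → Low c
  low' : ∀ i c, (had P *ᵥ fun x => if x ∈ Bad i then Φ x else 0) c ≠ 0 → Low c
  van : ∀ i, ∀ x ∈ Bad i, Ψ x = 0
  near : (Fintype.card ι + 1) * nsq (Ψ - Φ) ≤ ε ^ 2

variable {Bad : ι → Finset (P → Bool)} {Ψ Φ : (P → Bool) → ℂ} {ε : ℝ}

lemma Fw.tn_val (hF : Fw F enc dec) (hp : ∀ z c, had E z (enc c) = κ * had (P ⊕ Y) (p z) c)
    (hd : ∀ c, Low (fun i => c (Sum.inl i)) → dec (enc c) = c)
    (hφ : ∀ c, (had P *ᵥ φ) c ≠ 0 → Low c) (x : P ⊕ Y → Bool) (z : E → Bool) (r : R → Bool) :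
    F (lift (tn a φ lab)) (pt x z r) = if x = zr then κ * tn a φ lab r (p z) else 0 :=
  hF.low x r hp (fun r c hc => hd c (hφ _ fun h => hc (by rw [had_tn, h, mul_zero, zero_mul]))) z

lemma Fw.bad (hF : Fw F enc dec) (hp : ∀ z c, had E z (enc c) = κ * had (P ⊕ Y) (p z) c)
    (hd : ∀ c, Low (fun i => c (Sum.inl i)) → dec (enc c) = c) (hS : Split Low Bad Ψ Φ ε) :
    nr (fun y => if ∃ i, (fun k => p (fun k => y (Sum.inr (Sum.inl k))) (Sum.inl k)) ∈ Bad i then
      F (lift (tn a Φ lab)) y else 0) ≤ ε * nr a := by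
  refine nr_le_of_nsq _ _ _ hS.pos ?_
  calc _ ≤ ∑ y, ∑ i, ‖F (lift (tn a (fun x => if x ∈ Bad i then Φ x else 0) lab)) y‖ ^ 2 := by
        refine sum_le_sum fun y _ => ?_
        obtain ⟨x, z, r, rfl⟩ := pt_eta y
        beta_reduce
        split_ifs with h
        · obtain ⟨i, hi⟩ := h
          refine le_of_eq_of_le ?_ (single_le_sum (fun _ _ => sq_nonneg _) (mem_univ i))
          rw [hF.tn_val a _ lab hp hd hS.low, hF.tn_val a _ lab hp hd (hS.low' i)]
          simp only [tn]
          rw [if_pos (show (fun k => p z (Sum.inl k)) ∈ Bad i from hi)]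
        · rw [norm_zero, zero_pow two_ne_zero]
          exact sum_nonneg fun _ _ => sq_nonneg _
    _ ≤ ∑ _i : ι, nsq a * nsq (Ψ - Φ) := by
        rw [sum_comm]
        refine sum_le_sum fun i _ => ?_
        rw [← nsq, ← nr_sq, hF.iso, nr_tn, mul_pow, nr_sq, nr_sq]
        refine mul_le_mul_of_nonneg_left (sum_le_sum fun x _ => ?_) (nsq_nonneg _)
        beta_reduce
        split_ifs with h
        · simp [hS.van i x h]
        · simp
    _ ≤ _ := by
        rw [sum_const, card_univ, nsmul_eq_mul]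
        nlinarith [hS.near, nsq_nonneg a, nsq_nonneg (Ψ - Φ),
          mul_nonneg (nsq_nonneg a) (nsq_nonneg (Ψ - Φ))]

lemma nr_flip {t : R} (b : (R → Bool) → Bool) (hb : ∀ r c, b (Function.update r t c) = b r) :
    nr (fun r => a (Function.update r t (xor (r t) (b r)))) = nr a := by
  have hinv : Function.Involutive fun r : R → Bool => Function.update r t (xor (r t) (b r)) :=
    fun r => by simp [hb]
  exact nr_comp_equiv hinv.toPerm a

theorem Fw.core (hF : Fw F enc dec) (hp : ∀ z c, had E z (enc c) = κ * had (P ⊕ Y) (p z) c)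
    (hd : ∀ c, Low (fun i => c (Sum.inl i)) → dec (enc c) = c) (hS : Split Low Bad Ψ Φ ε)
    (A : List Bool → Bool) {l : List ((P ⊕ Y) ⊕ E ⊕ R)} {t pad : R}
    (hl : Sum.inr (Sum.inr t) ∉ l) (ht : pad ≠ t) (h : (Y → Bool) → Bool)
    (hA : ∀ x z r, r pad = false → (∀ i, (fun k => p z (Sum.inl k)) ∉ Bad i) →
      A (l.map (pt x z r)) = h fun k => p z (Sum.inr k))
    (ha : ∀ r, r pad = true → a r = 0) (hlab : ∀ r c, lab (Function.update r t c) = lab r) :
    nr (act A (Sum.inr (l, Sum.inr (Sum.inr t))) (F (lift (tn a Ψ lab))) - F (lift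
      (tn (fun r => a (Function.update r t (xor (r t) (h (lab r))))) Ψ lab))) ≤ 4 * ε * nr a := by
  set a' := fun r => a (Function.update r t (xor (r t) (h (lab r)))) with ha'
  have h0 : nr a' = nr a := nr_flip a _ fun r c => by rw [hlab]
  have hg : GV (Sum.inr (l, Sum.inr (Sum.inr t)) : Gate ((P ⊕ Y) ⊕ E ⊕ R)) := hl
  have h1 : nr (Ψ - Φ) ≤ ε := Real.sqrt_le_iff.2 ⟨hS.pos, by
    nlinarith [hS.near, nsq_nonneg (Ψ - Φ), mul_nonneg (Nat.cast_nonneg (Fintype.card ι))
      (nsq_nonneg (Ψ - Φ))]⟩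
  have h2 := hF.bad a lab hp hd hS
  have h3 := hF.bad a' lab hp hd hS
  generalize hG : (fun y => if ∃ i, (fun k => p (fun k => y (Sum.inr (Sum.inl k)))
    (Sum.inl k)) ∈ Bad i then F (lift (tn a Φ lab)) y else 0) = G at h2
  generalize hG' : (fun y => if ∃ i, (fun k => p (fun k => y (Sum.inr (Sum.inl k)))
    (Sum.inl k)) ∈ Bad i then F (lift (tn a' Φ lab)) y else 0) = G' at h3
  have e1 : act A (Sum.inr (l, Sum.inr (Sum.inr t))) (F (lift (tn a Φ lab))) -
      F (lift (tn a' Φ lab)) = act A (Sum.inr (l, Sum.inr (Sum.inr t))) G - G' := by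
    funext y
    obtain ⟨x, z, r, rfl⟩ := pt_eta y
    simp only [act, Pi.sub_apply, upd_R, ← hG, ← hG']
    by_cases hz : ∃ i, (fun k => p z (Sum.inl k)) ∈ Bad i
    · rw [if_pos (by exact hz), if_pos (by exact hz)]
    · rw [if_neg (by exact hz), if_neg (by exact hz), hF.tn_val a _ lab hp hd hS.low,
        hF.tn_val a' _ lab hp hd hS.low, sub_zero, sub_eq_zero]
      simp only [tn, hlab, ha']
      by_cases hy : (fun k => p z (Sum.inr k)) = lab r
      · cases hr : r pad
        · rw [hA x z r hr (not_exists.1 hz), hy]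
          rfl
        · rw [ha _ ((Function.update_of_ne ht _ _).trans hr),
            ha _ ((Function.update_of_ne ht _ _).trans hr)]
      · simp [hy]
  have e2 : act A (Sum.inr (l, Sum.inr (Sum.inr t))) (F (lift (tn a Ψ lab))) -
      F (lift (tn a' Ψ lab)) = (act A (Sum.inr (l, Sum.inr (Sum.inr t))) G - G') +
      (act A (Sum.inr (l, Sum.inr (Sum.inr t))) (F (lift (tn a (Ψ - Φ) lab))) -
        F (lift (tn a' (Ψ - Φ) lab))) := by
    rw [← e1, lift_tn_sub, lift_tn_sub, hF.sub, hF.sub, act_sub]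
    abel
  rw [e2]
  refine (nr_add_le _ _).trans ((add_le_add (nr_sub_le _ _) (nr_sub_le _ _)).trans ?_)
  rw [nr_act A hg, nr_act A hg, hF.iso, hF.iso, nr_tn, nr_tn, h0]
  rw [h0] at h3
  nlinarith [mul_le_mul_of_nonneg_left h1 (nr_nonneg a)]

end

end Pool.Agent.MP_36f78e_lc.H75C
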