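import Mathlib
import Pool.Agent.MP_36f78e_lc.H75C.Fwd

/-!
The product state and its Fourier tail.
-/

set_option linter.unusedSectionVars false

namespace Pool.Agent.MP_36f78e_lc.H75C

open Finset Matrix Pool.Agent.MP_36f78e_lc.H24 Pool.Agent.MP_36f78e_lc.H24.Cl

section Blocks

variable {B S : Type} [Fintype B] [DecidableEq B] [Fintype S] [DecidableEq S]

/-- The number of nonzero blocks. -/
def wt (c : B × S → Bool) : ℕ := (univ.filter fun i => (fun k => c (i, k)) ≠ zr).card

/-- A product vector. -/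
noncomputable def pv (ψ : B → (S → Bool) → ℂ) (x : B × S → Bool) : ℂ :=
  ∏ i, ψ i fun k => x (i, k)

lemma had_pv (ψ : B → (S → Bool) → ℂ) : had (B × S) *ᵥ pv ψ = pv fun i => had S *ᵥ ψ i := by
  funext c
  simp only [mulVec, dotProduct, pv, had_prod, ← prod_mul_distrib]
  exact sum_blocks fun i b => had S (fun k => c (i, k)) b * ψ i b

lemma nsq_pv (ψ : B → (S → Bool) → ℂ) : nsq (pv ψ) = ∏ i, nsq (ψ i) := by
  simp only [nsq, pv, norm_prod, ← prod_pow]
  exact sum_blocks fun i b => ‖ψ i b‖ ^ 2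

lemma tail (ψ : B → (S → Bool) → ℂ) (h1 : ∀ i, nsq (ψ i) = 1) {δ : ℝ}
    (h2 : ∀ i, 1 - δ ≤ ‖(had S *ᵥ ψ i) zr‖ ^ 2) (w : ℕ) :
    nsq (fun c => if wt c ≤ w then 0 else (had (B × S) *ᵥ pv ψ) c) ≤
      (1 + δ) ^ Fintype.card B / 2 ^ w := by
  rw [le_div_iff₀ (by positivity), nsq, sum_mul, had_pv]
  calc _ ≤ ∑ c : B × S → Bool, ∏ i, (if (fun k => c (i, k)) ≠ zr then 2 else 1) *
        ‖(had S *ᵥ ψ i) fun k => c (i, k)‖ ^ 2 := by
        refine sum_le_sum fun c _ => ?_
        rw [prod_mul_distrib, prod_ite, prod_const, prod_const_one, mul_one, prod_pow,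
          ← norm_prod]
        split_ifs with h
        · rw [norm_zero, zero_pow two_ne_zero, zero_mul]
          positivity
        · rw [mul_comm]
          exact mul_le_mul_of_nonneg_right (pow_le_pow_right₀ (by norm_num) (not_le.1 h).le)
            (sq_nonneg _)
    _ = ∏ i, ∑ b, (if b ≠ zr then 2 else 1) * ‖(had S *ᵥ ψ i) b‖ ^ 2 :=
        sum_blocks fun i b => (if b ≠ zr then 2 else 1) * ‖(had S *ᵥ ψ i) b‖ ^ 2
    _ ≤ ∏ _i : B, (1 + δ) := by
        refine prod_le_prod (fun i _ => sum_nonneg fun b _ => by split_ifs <;> positivity)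
          fun i _ => ?_
        have e : ∀ b, (if b ≠ zr then 2 else 1) * ‖(had S *ᵥ ψ i) b‖ ^ 2 =
            2 * ‖(had S *ᵥ ψ i) b‖ ^ 2 - if b = zr then ‖(had S *ᵥ ψ i) b‖ ^ 2 else 0 :=
          fun b => by by_cases h : b = zr <;> simp [h, two_mul]
        simp only [e, sum_sub_distrib, ← mul_sum, sum_ite_eq', mem_univ, if_true]
        rw [← nsq, nsq_had, h1]
        linarith [h2 i]
    _ = _ := by rw [prod_const, card_univ]

lemma low_mul {w : ℕ} (i : B) (g : (S → Bool) → ℂ) {u : (B × S → Bool) → ℂ}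
    (hu : ∀ c, u c ≠ 0 → wt c ≤ w) (c' : B × S → Bool)
    (h : (had (B × S) *ᵥ fun x => g (fun k => x (i, k)) * (had (B × S) *ᵥ u) x) c' ≠ 0) :
    wt c' ≤ w + 1 := by
  by_contra hc
  apply h
  simp only [mulVec, dotProduct, mul_sum]
  rw [sum_comm]
  refine sum_eq_zero fun c _ => ?_
  by_cases h0 : u c = 0
  · simp [h0]
  obtain ⟨j, hj, h1, h2⟩ : ∃ j, j ≠ i ∧ (fun k => c' (j, k)) ≠ zr ∧ (fun k => c (j, k)) = zr := by
    by_contra h1
    push Not at h1
    refine hc ((card_le_card (t := insert i (univ.filter fun i => (fun k => c (i, k)) ≠ zr))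
      fun j hj => ?_).trans ((card_insert_le _ _).trans (Nat.succ_le_succ (hu c h0))))
    by_cases e : j = i
    · simp [e]
    · exact mem_insert_of_mem (mem_filter.2 ⟨mem_univ _, h1 j e (mem_filter.1 hj).2⟩)
  have e : ∀ x : B × S → Bool, had (B × S) c' x * (g (fun k => x (i, k)) *
      (had (B × S) x c * u c)) = (∏ j, had S (fun k => c' (j, k)) (fun k => x (j, k)) *
        had S (fun k => x (j, k)) (fun k => c (j, k)) *
        if j = i then g (fun k => x (j, k)) else 1) * u c := fun x => by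
    simp only [prod_mul_distrib, ← had_prod, prod_ite_eq', mem_univ, if_true]
    ring
  simp only [e]
  rw [← sum_mul, sum_blocks fun j b => had S (fun k => c' (j, k)) b *
    had S b (fun k => c (j, k)) * if j = i then g b else 1, prod_eq_zero (mem_univ j), zero_mul]
  simp only [if_neg hj, mul_one, had_orth, h2, if_neg h1]

theorem split_pv (ψ : B → (S → Bool) → ℂ) (h1 : ∀ i, nsq (ψ i) = 1) {δ ε : ℝ}
    (h2 : ∀ i, 1 - δ ≤ ‖(had S *ᵥ ψ i) zr‖ ^ 2) (w : ℕ) (bad : B → (S → Bool) → Prop)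
    [∀ i b, Decidable (bad i b)] (h3 : ∀ i b, bad i b → ψ i b = 0) (hε : 0 ≤ ε)
    (h4 : (Fintype.card B + 1) * ((1 + δ) ^ Fintype.card B / 2 ^ w) ≤ ε ^ 2) :
    ∃ Φ, Split (fun c => wt c ≤ w + 1)
      (fun i => univ.filter fun x => bad i fun k => x (i, k)) (pv ψ) Φ ε := by
  set u : (B × S → Bool) → ℂ := fun c => if wt c ≤ w then (had (B × S) *ᵥ pv ψ) c else 0 with hu
  have hu' : ∀ c, u c ≠ 0 → wt c ≤ w := fun c hc => by
    by_contra h
    exact hc (if_neg h)
  refine ⟨had (B × S) *ᵥ u, hε, fun c hc => ?_, fun i c hc => ?_, fun i x hx => ?_, ?_⟩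
  · rw [had_had] at hc
    exact (hu' c hc).trans (Nat.le_succ w)
  · refine low_mul i (fun b => if bad i b then 1 else 0) hu' c ?_
    simpa only [mem_filter, mem_univ, true_and, ite_mul, one_mul, zero_mul] using hc
  · exact prod_eq_zero (mem_univ i) (h3 i _ (mem_filter.1 hx).2)
  · refine le_trans (mul_le_mul_of_nonneg_left (le_of_eq_of_le ?_ (tail ψ h1 h2 w))
      (by positivity)) h4
    rw [← nsq_had, mulVec_sub, had_had]
    congr 1
    funext c
    simp only [hu, Pi.sub_apply]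
    split_ifs <;> simp

end Blocks

section Refl

variable {d : ℕ}

lemma sum_ite_zr (a b : ℂ) :
    ∑ x : Fin d → Bool, (if x = zr then a else b) = a + (2 ^ d - 1) * b := by
  have e : ∀ x : Fin d → Bool, (if x = zr then a else b) = (if x = zr then a - b else 0) + b :=
    fun x => by split_ifs <;> simp
  simp only [e, sum_add_distrib, sum_ite_eq', mem_univ, if_true, sum_const, card_univ,
    Fintype.card_fun, Fintype.card_bool, Fintype.card_fin, nsmul_eq_mul]
  push_cast
  ring

lemma root_pos (hd : d ≠ 0) : (0 : ℝ) < 2 ^ d - 1 :=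
  sub_pos.2 (one_lt_pow₀ (by norm_num) hd)

lemma root_sq (hd : d ≠ 0) :
    ((√(2 ^ d - 1) : ℝ) : ℂ) * (√(2 ^ d - 1) : ℝ) = 2 ^ d - 1 := by
  rw [← Complex.ofReal_mul, Real.mul_self_sqrt (root_pos hd).le]
  push_cast
  rfl

lemma root_ne (hd : d ≠ 0) : ((√(2 ^ d - 1) : ℝ) : ℂ) ≠ 0 :=
  Complex.ofReal_ne_zero.2 (Real.sqrt_ne_zero'.2 (root_pos hd))

lemma dir_eq (a : Fin d → Bool) :
    dir a = if a = zr then (1 : ℂ) else -1 / (√(2 ^ d - 1) : ℝ) := rfl

lemma sum_dir (hd : d ≠ 0) : ∑ a : Fin d → Bool, dir a * dir a = 2 := by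
  have e : ∀ a : Fin d → Bool, dir a * dir a = if a = zr then (1 : ℂ) else
      1 / ((√(2 ^ d - 1) : ℝ) * (√(2 ^ d - 1) : ℝ)) := fun a => by
    rw [dir_eq]
    split_ifs
    · rw [mul_one]
    · rw [div_mul_div_comm, neg_mul_neg, mul_one]
  simp only [e, sum_ite_zr]
  rw [← root_sq hd, mul_one_div_cancel (mul_ne_zero (root_ne hd) (root_ne hd))]
  norm_num

lemma refl_orth (hd : d ≠ 0) (a c : Fin d → Bool) :
    ∑ b, refl d a b * star (refl d c b) = if a = c then 1 else 0 := by
  have e : ∀ b : Fin d → Bool, star (dir b) = dir b := fun b => by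
    rw [dir_eq]
    split_ifs
    · exact star_one _
    · rw [star_div₀, Complex.star_def, Complex.conj_ofReal, map_neg, map_one]
  have e1 : ∀ b, refl d a b * star (refl d c b) =
      (if a = b then (if c = b then 1 else 0) - dir c * dir b else 0) -
      (if c = b then dir a * dir b else 0) + dir a * dir c * (dir b * dir b) := fun b => by
    simp only [refl, star_sub, star_mul', e]
    split_ifs <;> simp <;> ring
  simp only [e1, sum_add_distrib, sum_sub_distrib, sum_ite_eq, mem_univ, if_true, ← mul_sum,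
    sum_dir hd]
  rw [if_congr (eq_comm (a := c)) rfl rfl]
  ring

lemma refl_zr (a : Fin d → Bool) :
    refl d a zr = if a = zr then (0 : ℂ) else 1 / (√(2 ^ d - 1) : ℝ) := by
  rw [refl, dir_eq, dir_eq, if_pos rfl]
  split_ifs <;> ring

variable {B S : Type} [Fintype B] [DecidableEq B] [Fintype S] [DecidableEq S]

/-- The gate on one block. -/
noncomputable def blk (S : Type) [Fintype S] (d : ℕ) (x y : S ⊕ Fin d → Bool) : ℂ :=
  had S (fun k => x (Sum.inl k)) (fun k => y (Sum.inl k)) *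
    refl d (fun k => x (Sum.inr k)) fun k => y (Sum.inr k)

lemma blk_orth (hd : d ≠ 0) (x y : S ⊕ Fin d → Bool) :
    ∑ b, blk S d x b * star (blk S d y b) = if x = y then 1 else 0 := by
  rw [sum_elim]
  have e : ∀ s δ, blk S d x (Sum.elim s δ) * star (blk S d y (Sum.elim s δ)) =
      (had S (fun k => x (Sum.inl k)) s * had S s fun k => y (Sum.inl k)) *
      (refl d (fun k => x (Sum.inr k)) δ * star (refl d (fun k => y (Sum.inr k)) δ)) :=
    fun s δ => by
      simp only [blk, Sum.elim_inl, Sum.elim_inr, star_mul', had_star, had_symm s]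
      ring
  simp only [e]
  rw [← sum_mul_sum, had_orth, refl_orth hd, ite_zero_mul_ite_zero, mul_one]
  refine if_congr ⟨fun h => ?_, fun h => by simp [h]⟩ rfl rfl
  rw [← elim_eta x, ← elim_eta y, h.1, h.2]

lemma blocks_unitary (hd : d ≠ 0)
    (U : Matrix (B × (S ⊕ Fin d) → Bool) (B × (S ⊕ Fin d) → Bool) ℂ)
    (hU : ∀ x y, U x y = ∏ i, blk S d (fun k => x (i, k)) fun k => y (i, k)) :
    U ∈ unitaryGroup _ ℂ := by
  rw [mem_unitaryGroup_iff]
  ext x y
  rw [mul_apply, one_apply]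
  simp only [star_apply, hU, star_prod, ← prod_mul_distrib]
  rw [sum_blocks fun i b => blk S d (fun k => x (i, k)) b * star (blk S d (fun k => y (i, k)) b)]
  simp only [blk_orth hd]
  rw [prod_ite_zero]
  simp [funext_iff]

/-- Add to the low bits a function of the high bits. -/
def sh (o : (S → Bool) → Fin d → Bool) (b : S ⊕ Fin d → Bool) : S ⊕ Fin d → Bool :=
  Sum.elim (fun k => b (Sum.inl k)) (xr (fun k => b (Sum.inr k)) (o fun k => b (Sum.inl k)))

lemma sh_inv (o : (S → Bool) → Fin d → Bool) : Function.Involutive (sh o) := fun b => by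
  funext k
  rcases k with k | k <;> simp [sh, xr]

/-- The state of one block. -/
noncomputable def st (o : (S → Bool) → Fin d → Bool) (b : S ⊕ Fin d → Bool) : ℂ :=
  blk S d (sh o b) zr

lemma nsq_st (hd : d ≠ 0) (o : (S → Bool) → Fin d → Bool) : nsq (st o) = 1 := by
  rw [← nr_sq, show nr (st o) = nr fun b => blk S d b zr from
    nr_comp_equiv (sh_inv o).toPerm fun b => blk S d b zr, nr_sq]
  have h1 := blk_orth (S := S) hd zr zr
  rw [if_pos rfl] at h1
  apply Complex.ofReal_injective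
  rw [Complex.ofReal_one, ← h1, nsq]
  push_cast
  refine sum_congr rfl fun b _ => ?_
  rw [Complex.star_def, Complex.mul_conj']
  congr 3
  simp only [blk, refl, had_symm (fun k => b (Sum.inl k)), eq_comm (a := fun k => b (Sum.inr k)),
    mul_comm (dir fun k => b (Sum.inr k))]

lemma st_bad (o : (S → Bool) → Fin d → Bool) (b : S ⊕ Fin d → Bool)
    (h : o (fun k => b (Sum.inl k)) = fun k => b (Sum.inr k)) : st o b = 0 := by
  have : refl d (xr (fun k => b (Sum.inr k)) (o fun k => b (Sum.inl k))) zr = 0 := by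
    rw [h, xr_self, refl_zr, if_pos rfl]
  exact mul_eq_zero_of_right _ this

lemma st_hat (hd : d ≠ 0) (o : (S → Bool) → Fin d → Bool) :
    1 - 1 / 2 ^ d ≤ ‖(had (S ⊕ Fin d) *ᵥ st o) zr‖ ^ 2 := by
  have e1 : ∀ a : Fin d → Bool, ∑ δ, refl d (xr δ a) zr = (√(2 ^ d - 1) : ℝ) := fun a => by
    have hinv : Function.Involutive fun δ => xr δ a := fun δ => ((xr_swap _ _ _).2 rfl)
    rw [show ∑ δ, refl d (xr δ a) zr = ∑ δ, refl d δ zr from
      Equiv.sum_comp hinv.toPerm fun δ => refl d δ zr]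
    simp only [refl_zr, sum_ite_zr]
    rw [zero_add, ← root_sq hd, mul_one_div, mul_div_cancel_right₀ _ (root_ne hd)]
  have e2 : ∀ s δ, had (S ⊕ Fin d) zr (Sum.elim s δ) * st o (Sum.elim s δ) =
      had S zr s * had S s zr * had (Fin d) zr zr * refl d (xr δ (o s)) zr := fun s δ => by
    rw [← elim_eta zr, had_elim]
    have : had (Fin d) (fun a => zr (Sum.inr a : S ⊕ Fin d)) δ = had (Fin d) zr zr := by
      simp [had, zr]
    rw [this]
    change had S zr s * had (Fin d) zr zr * (had S s zr * refl d (xr δ (o s)) zr) = _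
    ring
  rw [mulVec, dotProduct, sum_elim]
  simp only [e2, ← mul_sum, e1, ← sum_mul, had_orth, if_true, one_mul, norm_mul, mul_pow,
    norm_had_sq, Fintype.card_fin, Complex.norm_real, Real.norm_eq_abs, sq_abs]
  rw [Real.sq_sqrt (root_pos hd).le]
  field_simp
  rfl

lemma st_val (o : (S → Bool) → Fin d → Bool) (b : S ⊕ Fin d → Bool) :
    st o b = 0 ∨ st o b = (1 / √2 ^ Fintype.card S * (1 / √(2 ^ d - 1)) : ℝ) := by
  have e : had S (fun k => sh o b (Sum.inl k)) zr = 1 / ((√2 : ℝ) : ℂ) ^ Fintype.card S := by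
    simp [had, zr]
  change had S (fun k => sh o b (Sum.inl k)) zr * refl d _ zr = 0 ∨
    had S (fun k => sh o b (Sum.inl k)) zr * refl d _ zr = _
  rw [refl_zr, e]
  split_ifs
  · exact Or.inl (mul_zero _)
  · exact Or.inr (by push_cast; rfl)

lemma nsq_unif {β : Type} [Fintype β] [DecidableEq β] {T : Finset β} (h : T.Nonempty) :
    nsq (unif T) = 1 := by
  have h1 : (0 : ℝ) < T.card := by exact_mod_cast h.card_pos
  unfold nsq unif
  rw [← sum_subset (subset_univ T) fun z _ hz => by simp [hz],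
    sum_congr rfl fun z hz => by rw [if_pos hz]]
  rw [sum_const, nsmul_eq_mul, norm_div, norm_one, Complex.norm_real,
    Real.norm_of_nonneg (Real.sqrt_nonneg _), div_pow, Real.sq_sqrt h1.le]
  field_simp

lemma exists_unif {β : Type} [Fintype β] [DecidableEq β] (v : β → ℂ) {γ : ℝ} (hγ : 0 ≤ γ)
    (h : ∀ y, v y = 0 ∨ v y = γ) (h1 : nsq v = 1) : ∃ T : Finset β, T.Nonempty ∧ v = unif T := by
  set T := univ.filter fun y => v y ≠ 0 with hT
  have h2 : ∀ y, v y = if y ∈ T then (γ : ℂ) else 0 := fun y => by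
    split_ifs with hy
    · exact (h y).resolve_left (mem_filter.1 hy).2
    · simpa [hT] using hy
  have h3 : T.card * γ ^ 2 = 1 := by
    rw [← h1, nsq, ← sum_subset (subset_univ T) fun z _ hz => by simp [h2 z, hz],
      sum_congr rfl fun z hz => by rw [h2 z, if_pos hz]]
    simp
  have h4 : T.Nonempty := nonempty_iff_ne_empty.2 fun e => by simp [e] at h3
  have h5 : (0 : ℝ) < T.card := by exact_mod_cast h4.card_pos
  refine ⟨T, h4, funext fun y => (h2 y).trans (if_congr Iff.rfl ?_ rfl)⟩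
  rw [← Real.sqrt_sq hγ, eq_div_of_mul_eq h5.ne' ((mul_comm _ _).trans h3), Real.sqrt_div zero_le_one,
    Real.sqrt_one]
  push_cast
  rfl

lemma pv_unif (hd : d ≠ 0) (ω : B → (S → Bool) → Fin d → Bool) :
    ∃ T : Finset (B × (S ⊕ Fin d) → Bool), T.Nonempty ∧ (pv fun i => st (ω i)) = unif T := by
  refine exists_unif _ (γ := (1 / √2 ^ Fintype.card S * (1 / √(2 ^ d - 1))) ^ Fintype.card B)
    (by positivity) (fun x => ?_) (by rw [nsq_pv, prod_eq_one fun i _ => nsq_st hd _])
  by_cases h : ∃ i, st (ω i) (fun k => x (i, k)) = 0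
  · obtain ⟨i, hi⟩ := h
    exact Or.inl (prod_eq_zero (mem_univ i) hi)
  · right
    rw [pv, prod_congr rfl fun i _ => (st_val _ _).resolve_left (not_exists.1 h i), prod_const,
      card_univ, Complex.ofReal_pow]

end Refl

end Pool.Agent.MP_36f78e_lc.H75C
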