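import Mathlib
import Pool.Agent.MP_36f78e_lc.H75C.Prod

/-!
The gates of the verifier and of the cloner.
-/

set_option linter.unusedSectionVars false

namespace Pool.Agent.MP_36f78e_lc.H75C

open Finset Matrix Pool.Agent.MP_36f78e_lc.H24 Pool.Agent.MP_36f78e_lc.H24.Cl

lemma mem_all {β γ : Type} [FinEnum β] {f : β → γ} {x : γ} : x ∈ all f ↔ ∃ b, f b = x := by
  simp [all]

lemma length_toList (β : Type) [FinEnum β] [Fintype β] :
    (FinEnum.toList β).length = Fintype.card β := by
  rw [← FinEnum.card_eq_fintypeCard]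
  simp [FinEnum.toList]

lemma length_all {β γ : Type} [FinEnum β] [Fintype β] (f : β → γ) :
    (all f).length = Fintype.card β := by
  rw [all, List.length_map, length_toList]

variable {n : ℕ}

/-- The padded list of input wires. -/
def src (ν : Name n) (l : List (Wire n)) : List (Wire n) :=
  l ++ List.replicate (Nat.pair (Nat.pair n (FinEnum.equiv ν)) l.length - l.length) (sw n 0)

lemma length_src (ν : Name n) (l : List (Wire n)) :
    (src ν l).length = Nat.pair (Nat.pair n (FinEnum.equiv ν)) l.length := by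
  rw [src, List.length_append, List.length_replicate,
    Nat.add_sub_cancel' (Nat.right_le_pair _ _)]

lemma not_mem_src {ν : Name n} {l : List (Wire n)} {t : Wire n} (h : t ∉ l) (h' : t ≠ sw n 0) :
    t ∉ src ν l := by
  simp only [src, List.mem_append, List.mem_replicate, not_or, not_and]
  exact ⟨h, fun _ => h'⟩

/-- Valid gates whose calls have a length of the right form. -/
def Ok (n : ℕ) (g : Gate (Wire n)) : Prop :=
  GV g ∧ ∀ l t, g = Sum.inr (l, t) → ∃ ν : Name n, ∃ k ≤ Fintype.card (Wire n),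
    l.length = Nat.pair (Nat.pair n (FinEnum.equiv ν)) k

lemma call_ok {β : Type} [FinEnum β] (ν : Name n) {f : β → Wire n} (hf : Function.Injective f)
    {t : Wire n} (h : ∀ b, f b ≠ t) (h' : t ≠ sw n 0) :
    Ok n (call ν (all f) t) ∧ Inv (call ν (all f) t) := by
  have h1 : t ∉ src ν (all f) := not_mem_src (fun hm => by
    obtain ⟨b, hb⟩ := mem_all.1 hm
    exact h b hb) h'
  refine ⟨⟨h1, fun l t' e => ⟨ν, (all f).length, ?_, ?_⟩⟩, call_inv h1⟩
  · rw [length_all]
    exact Fintype.card_le_of_injective f hf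
  · rw [← (Prod.mk.inj (Sum.inr.inj e)).1]
    exact length_src ν _

lemma on_ok {β : Type} [Fintype β] [DecidableEq β] {f : β → Wire n} (hf : Function.Injective f)
    {U : Matrix (β → Bool) (β → Bool) ℂ} (hU : U ∈ unitaryGroup (β → Bool) ℂ) : Ok n (on f U) :=
  ⟨on_gv hf hU, fun _ _ e => by cases e⟩

lemma wk_inj : Function.Injective (wk (n := n)) := inj_E

lemma cp_inj : Function.Injective (cp (n := n)) :=
  Sum.inr_injective.comp (Sum.inr_injective.comp Sum.inl_injective)

lemma fwd_ok : ∀ g ∈ fwd n, Ok n g ∧ Inv g := by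
  intro g hg
  simp only [fwd, List.mem_cons, List.mem_append, mem_all, List.not_mem_nil, or_false] at hg
  rcases hg with rfl | (⟨k, rfl⟩ | ⟨a, rfl⟩) | rfl
  · exact ⟨on_ok Sum.inl_injective had_unitary, on_inv Sum.inl_injective had_mul⟩
  · exact call_ok _ Sum.inl_injective (by simp [wk]) (by simp [wk, sw])
  · exact call_ok _ wk_inj (by simp [wk]) (by simp [sw])
  · exact ⟨on_ok wk_inj had_unitary, on_inv wk_inj had_mul⟩

lemma ask_ok {t : Wit n ⊕ Fin 2} (h : t ≠ Sum.inr 0) : Ok n (ask (Sum.inr (Sum.inr t))) :=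
  (call_ok _ wk_inj (by simp [wk]) (by simpa [sw] using h)).1

lemma load_ok (c : Bl n × Fin (lg n)) : ∀ g ∈ load c, Ok n g := by
  intro g hg
  obtain ⟨a, rfl⟩ := mem_all.1 hg
  exact (call_ok _ (fun k k' h => by simpa using cp_inj h) (by simp [cp]) (by simp [sw])).1

lemma verifier_ok : ∀ g ∈ verifier n, Ok n g := by
  intro g hg
  rcases List.mem_append.1 hg with h | h
  · exact (fwd_ok g h).1
  · rw [List.mem_singleton.1 h]
    exact ask_ok (by simp)

/-- One round of the cloner. -/
noncomputable def round (c : Bl n × Fin (lg n)) : List (Gate (Wire n)) :=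
  load c ++ fwd n ++ [ask (cp (c.1, Sum.inr c.2))] ++ (fwd n).reverse ++ load c

lemma round_ok (c : Bl n × Fin (lg n)) : ∀ g ∈ round c, Ok n g := by
  intro g hg
  simp only [round, List.mem_append, List.mem_singleton, List.mem_reverse] at hg
  rcases hg with (((h | h) | rfl) | h) | h
  exacts [load_ok c g h, (fwd_ok g h).1, ask_ok (by simp), (fwd_ok g h).1, load_ok c g h]

lemma lg_ne : lg n ≠ 0 := by simp [lg]

lemma rounds_ok (l : List (Bl n × Fin (lg n))) : ∀ g ∈ (l.map round).flatten, Ok n g := by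
  intro g hg
  obtain ⟨gs, h1, h2⟩ := List.mem_flatten.1 hg
  obtain ⟨c, -, rfl⟩ := List.mem_map.1 h1
  exact round_ok c g h2

lemma cloner_ok : ∀ g ∈ cloner n, Ok n g := by
  intro g hg
  rcases List.mem_cons.1 hg with rfl | h
  · exact on_ok cp_inj (blocks_unitary lg_ne _ fun _ _ => rfl)
  · exact rounds_ok _ g h

/-- The tables that the oracle holds for the input length `n`. -/
structure Tab (A : List Bool → Bool) (enc : (Wit n ⊕ Lab n → Bool) → Wk n → Bool)
    (dec : (Wk n → Bool) → Wit n ⊕ Lab n → Bool)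
    (lab : Bl n × Fin (lg n) → (Fin (n * n - lg n) → Bool) → Lab n → Bool)
    (T : Finset (Wk n → Bool)) : Prop where
  henc : ∀ k (y : Wire n → Bool),
    A ((src (Sum.inl k) (all Sum.inl)).map y) = enc (fun a => y (Sum.inl a)) k
  hdec : ∀ a (y : Wire n → Bool),
    A ((src (Sum.inr (Sum.inl a)) (all wk)).map y) = dec (fun k => y (wk k)) a
  hlab : ∀ c a (y : Wire n → Bool), A ((src (Sum.inr (Sum.inr (Sum.inl (c, a))))
    (all fun k => cp (c.1, Sum.inl k))).map y) = lab c (fun k => y (cp (c.1, Sum.inl k))) a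
  hask : ∀ y : Wire n → Bool, y (sw n 0) = false →
    A ((src (Sum.inr (Sum.inr (Sum.inr ()))) (all wk)).map y) = decide ((fun k => y (wk k)) ∈ T)

variable {A : List Bool → Bool} {enc : (Wit n ⊕ Lab n → Bool) → Wk n → Bool}
  {dec : (Wk n → Bool) → Wit n ⊕ Lab n → Bool}
  {lab : Bl n × Fin (lg n) → (Fin (n * n - lg n) → Bool) → Lab n → Bool}
  {T : Finset (Wk n → Bool)}

lemma Tab.fw (hA : Tab A enc dec lab T) : Fw (run A (fwd n)) enc dec := by
  refine ⟨run_sub A _, nr_run A _ fun g hg => (fwd_ok g hg).1.1, fun g x z r =>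
    fw_val x r A _ _ (fun v x e r => ?_) (fun v x e r => ?_) g z⟩
  · refine (run_calls A wk_inj (fun k => src (Sum.inl k) (all Sum.inl)) (fun k k' => not_mem_src
      (by simp [mem_all, wk]) (by simp [wk, sw])) _ FinEnum.nodup_toList v _).trans ?_
    simp only [FinEnum.mem_toList, if_true, hA.henc]
    exact congrArg v (ext_E x e r _)
  · refine (run_calls A Sum.inl_injective (fun a => src (Sum.inr (Sum.inl a)) (all wk))
      (fun k k' => not_mem_src (by simp [mem_all, wk]) (by simp [sw])) _
      FinEnum.nodup_toList v _).trans ?_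
    simp only [FinEnum.mem_toList, if_true, hA.hdec]
    exact congrArg v (ext_X x e r _)

lemma Tab.load_tn (hA : Tab A enc dec lab T) (c : Bl n × Fin (lg n))
    (a : (Wit n ⊕ Fin 2 → Bool) → ℂ) (φ : (Wit n → Bool) → ℂ)
    (l : (Wit n ⊕ Fin 2 → Bool) → Lab n → Bool) :
    run A (load c) (lift (tn a φ l)) =
      lift (tn a φ fun r => xr (l r) (lab c fun k => r (Sum.inl (c.1, Sum.inl k)))) := by
  funext y
  obtain ⟨x, e, r, rfl⟩ := pt_eta y
  have hi : Function.Injective fun a : Lab n => (Sum.inl (Sum.inr a) : Wire n) :=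
    Sum.inl_injective.comp Sum.inr_injective
  refine (run_calls A hi (fun a => src (Sum.inr (Sum.inr (Sum.inl (c, a))))
    (all fun k => cp (c.1, Sum.inl k))) (fun k k' => not_mem_src (by simp [mem_all, cp])
      (by simp [sw])) _ FinEnum.nodup_toList _ _).trans ?_
  simp only [FinEnum.mem_toList, if_true, hA.hlab]
  have e1 : ∀ b : Lab n → Bool, Function.extend (fun a : Lab n => (Sum.inl (Sum.inr a) : Wire n))
      b (pt x e r) = pt (Sum.elim (fun a => x (Sum.inl a)) b) e r := fun b => by
    funext u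
    rcases u with (u | u) | u
    · exact extend_off _ _ (by simp)
    · exact hi.extend_apply _ _ _
    · exact extend_off _ _ (by simp)
  rw [e1, lift_pt, lift_pt]
  simp only [tn, ← xr_swap]
  rfl

/-- The initial vector. -/
lemma final_eq (gs : List (Gate (Wire n))) (w : (Wit n → Bool) → ℂ) : final A gs w =
    run A gs (lift (tn (fun r => if r = zr then 1 else 0) w fun _ => zr)) := by
  refine congrArg (run A gs) (funext fun y => ?_)
  obtain ⟨x, e, r, rfl⟩ := pt_eta y
  rw [lift_pt]
  simp only [tn, pt, Sum.elim_inl, Sum.elim_inr, Sum.forall, funext_iff, zr]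
  split_ifs <;> simp_all

lemma nr_delta : nr (fun r : Wit n ⊕ Fin 2 → Bool => if r = zr then (1 : ℂ) else 0) = 1 := by
  rw [nr, nsq, sum_eq_single zr (fun r _ h => by simp [h]) (by simp)]
  simp

theorem Tab.sound (hA : Tab A enc dec lab T) (w : (Wit n → Bool) → ℂ) :
    accept A w ≤ T.card * ((univ.image dec).card / 2 ^ (n * 2 ^ lg n) * nsq w) := by
  rw [accept, final_eq, verifier, run_append, run_one]
  refine (hA.fw.sound A _ (t := Sum.inr 1) (pad := Sum.inr 0) (by simp) T
    (fun x z r h => hA.hask _ h) _ fun r h => funext fun x => by simp [tn, h]).trans_eq ?_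
  rw [Fintype.card_fin, nsq_tn, if_pos rfl, norm_one, one_pow, one_mul]

end Pool.Agent.MP_36f78e_lc.H75C
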