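import Mathlib
import Pool.Agent.MP_36f78e_lc.H75C.Run

/-!
Completeness of the verifier and fidelity of the cloner.
-/

set_option linter.unusedSectionVars false

namespace Pool.Agent.MP_36f78e_lc.H75C

open Finset Matrix Pool.Agent.MP_36f78e_lc.H24 Pool.Agent.MP_36f78e_lc.H24.Cl

section

variable {P Y E R K : Type} [Fintype P] [DecidableEq P] [Fintype Y] [DecidableEq Y] [Fintype E]
  [DecidableEq E] [Fintype R] [DecidableEq R] [Fintype K] [DecidableEq K]

lemma acc_ge {α : Type} [Fintype α] [DecidableEq α] (t : α) (u v : (α → Bool) → ℂ)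
    (hu : nr u = 1) (hv : ∀ y, y t = false → v y = 0) {δ : ℝ} (h : nr (u - v) ≤ δ) :
    1 - δ ^ 2 ≤ ∑ y with y t = true, ‖u y‖ ^ 2 := by
  have h1 : ∑ y with ¬ y t = true, ‖u y‖ ^ 2 ≤ nsq (u - v) := by
    rw [sum_filter]
    refine sum_le_sum fun y _ => ?_
    split_ifs with hy
    · positivity
    · rw [Pi.sub_apply, hv y (by simpa using hy), sub_zero]
  have h2 := sum_filter_add_sum_filter_not univ (fun y : α → Bool => y t = true)
    fun y => ‖u y‖ ^ 2
  rw [← nsq, ← nr_sq, hu] at h2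
  rw [← nr_sq] at h1
  linarith [pow_le_pow_left₀ (nr_nonneg _) h 2]

/-- A vector on the copy register, with the remaining wires in state zero. -/
noncomputable def ex (β : (P → Bool) → ℂ) (r : P ⊕ K → Bool) : ℂ :=
  if (fun k => r (Sum.inr k)) = zr then β fun a => r (Sum.inl a) else 0

lemma nr_ex (β : (P → Bool) → ℂ) : nr (ex (K := K) β) = nr β := by
  unfold nr nsq
  rw [sum_elim]
  congr 1
  refine sum_congr rfl fun x _ => ?_
  rw [sum_eq_single zr (fun y _ hy => by simp [ex, hy]) (by simp)]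
  simp [ex]

lemma fid_ge (Ψ : (P → Bool) → ℂ) (hΨ : nr Ψ = 1) (v : ((P ⊕ Y) ⊕ E ⊕ P ⊕ K → Bool) → ℂ) {δ : ℝ}
    (h : nr (v - lift (tn (ex Ψ) Ψ fun _ => zr)) ≤ δ) :
    1 - 2 * δ ≤ ∑ a : Y → Bool, ∑ e : E → Bool, ∑ b : K → Bool, ‖∑ x, ∑ x',
      star (Ψ x) * star (Ψ x') * v (Sum.elim (Sum.elim x a) (Sum.elim e (Sum.elim x' b)))‖ ^ 2 := by
  set φ : ((P ⊕ Y) ⊕ E ⊕ P ⊕ K → Bool) → ℂ := lift (tn (ex Ψ) Ψ fun _ => zr) with hφ
  have h1 : nr φ = 1 := by rw [hφ, nr_tn, nr_ex, hΨ, mul_one]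
  have h2 : ip φ v = ∑ x, ∑ x', star (Ψ x) * star (Ψ x') *
      v (Sum.elim (Sum.elim x zr) (Sum.elim zr (Sum.elim x' zr))) := by
    rw [ip, sum_pt, sum_elim]
    refine sum_congr rfl fun x _ => ?_
    rw [sum_eq_single zr (fun y _ hy => by simp [hφ, lift_pt, tn, hy]) (by simp),
      sum_eq_single zr (fun y _ hy => by simp [hφ, lift_pt, hy]) (by simp), sum_elim]
    refine sum_congr rfl fun x' _ => ?_
    rw [sum_eq_single zr (fun y _ hy => by simp [hφ, lift_pt, tn, ex, hy]) (by simp)]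
    simp only [hφ, lift_pt, tn, ex, Sum.elim_inl, Sum.elim_inr, if_true, mul_one, map_mul,
      mul_comm (star (Ψ x))]
    rfl
  have h3 : ip φ v = 1 + ip φ (v - φ) := by
    rw [← Complex.ofReal_one, ← one_pow 2, ← h1, nr_sq, ← ip_self, ← ip_add_right, add_sub_cancel]
  have h4 : 1 - δ ≤ ‖ip φ v‖ := by
    have h5 := norm_ip_le φ (v - φ)
    have h6 := norm_sub_le (ip φ v) (ip φ (v - φ))
    rw [h3, add_sub_cancel_right, norm_one, ← h3] at h6
    rw [h1] at h5
    linarith
  refine le_trans ?_ (single_le_sum (fun _ _ => sum_nonneg fun _ _ => sum_nonneg fun _ _ =>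
    sq_nonneg _) (mem_univ zr))
  refine le_trans ?_ (single_le_sum (fun _ _ => sum_nonneg fun _ _ => sq_nonneg _) (mem_univ zr))
  refine le_trans ?_ (single_le_sum (fun _ _ => sq_nonneg _) (mem_univ zr))
  rw [← h2]
  nlinarith [sq_nonneg (‖ip φ v‖ - 1)]

lemma on_copy (A : List Bool → Bool) (U : Matrix (P → Bool) (P → Bool) ℂ) (w : (P → Bool) → ℂ) :
    act A (on (fun a : P => (Sum.inr (Sum.inr (Sum.inl a)) : (P ⊕ Y) ⊕ E ⊕ P ⊕ K)) U)
      (lift (tn (fun r => if r = zr then 1 else 0) w fun _ => zr)) =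
      lift (tn (ex fun x => U x zr) w fun _ => zr) := by
  have hi : Function.Injective
      fun a : P => (Sum.inr (Sum.inr (Sum.inl a)) : (P ⊕ Y) ⊕ E ⊕ P ⊕ K) :=
    Sum.inr_injective.comp (Sum.inr_injective.comp Sum.inl_injective)
  funext y
  obtain ⟨x, e, r, rfl⟩ := pt_eta y
  have e1 : ∀ c : P → Bool, Function.extend
      (fun a : P => (Sum.inr (Sum.inr (Sum.inl a)) : (P ⊕ Y) ⊕ E ⊕ P ⊕ K)) c (pt x e r) =
      pt x e (Sum.elim c fun k => r (Sum.inr k)) := fun c => by
    funext u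
    rcases u with u | u | u | u
    · exact extend_off _ _ (by simp)
    · exact extend_off _ _ (by simp)
    · exact hi.extend_apply _ _ _
    · exact extend_off _ _ (by simp)
  have e2 : ∀ c : P → Bool, (Sum.elim c fun k => r (Sum.inr k)) = zr ↔
      c = zr ∧ (fun k => r (Sum.inr k)) = zr := fun c => by
    simp [funext_iff, zr]
  rw [on_act hi]
  simp only [e1, lift_pt, tn, ex, e2]
  rw [sum_eq_single zr (fun y _ hy => by simp [hy]) (by simp)]
  simp only [true_and]
  split_ifs <;> simp [Function.comp_def, pt]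

end

variable {n : ℕ} {A : List Bool → Bool} {enc : (Wit n ⊕ Lab n → Bool) → Wk n → Bool}
  {dec p : (Wk n → Bool) → Wit n ⊕ Lab n → Bool}
  {lab : Bl n × Fin (lg n) → (Fin (n * n - lg n) → Bool) → Lab n → Bool}
  {T : Finset (Wk n → Bool)} {κ : ℂ} {Low : (Wit n → Bool) → Prop}
  {Bad : Bl n → Finset (Wit n → Bool)} {Ψ Φ : (Wit n → Bool) → ℂ} {ε : ℝ}
  {h : (Lab n → Bool) → Bool}

/-- The hypotheses on a positive instance. -/
structure Pos (A : List Bool → Bool) (enc : (Wit n ⊕ Lab n → Bool) → Wk n → Bool)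
    (dec p : (Wk n → Bool) → Wit n ⊕ Lab n → Bool)
    (lab : Bl n × Fin (lg n) → (Fin (n * n - lg n) → Bool) → Lab n → Bool)
    (T : Finset (Wk n → Bool)) (κ : ℂ) (Low : (Wit n → Bool) → Prop)
    (Bad : Bl n → Finset (Wit n → Bool)) (Ψ Φ : (Wit n → Bool) → ℂ) (ε : ℝ)
    (h : (Lab n → Bool) → Bool) : Prop where
  tab : Tab A enc dec lab T
  dual : ∀ z c, had _ z (enc c) = κ * had _ (p z) c
  low : ∀ c, Low (fun i => c (Sum.inl i)) → dec (enc c) = c
  split : Split Low Bad Ψ Φ ε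
  mem : ∀ z, (∀ i, (fun k => p z (Sum.inl k)) ∉ Bad i) →
    decide (z ∈ T) = h fun k => p z (Sum.inr k)
  one : nr Ψ = 1

lemma Pos.core (H : Pos A enc dec p lab T κ Low Bad Ψ Φ ε h) (a : (Wit n ⊕ Fin 2 → Bool) → ℂ)
    (l : (Wit n ⊕ Fin 2 → Bool) → Lab n → Bool) {t : Wit n ⊕ Fin 2} (ht : t ≠ Sum.inr 0)
    (ha : ∀ r, r (Sum.inr 0) = true → a r = 0) (hl : ∀ r c, l (Function.update r t c) = l r) :
    nr (act A (ask (Sum.inr (Sum.inr t))) (run A (fwd n) (lift (tn a Ψ l))) - run A (fwd n) (lift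
      (tn (fun r => a (Function.update r t (xor (r t) (h (l r))))) Ψ l))) ≤ 4 * ε * nr a :=
  H.tab.fw.core a l H.dual H.low H.split A (ask_ok ht).1 ht.symm h
    (fun _ z _ h1 h2 => (H.tab.hask _ h1).trans (H.mem z h2)) ha hl

theorem Pos.complete (H : Pos A enc dec p lab T κ Low Bad Ψ Φ ε h) (h0 : h zr = true) :
    1 - (4 * ε) ^ 2 ≤ accept A Ψ := by
  have h1 := H.core (fun r => if r = zr then 1 else 0) (fun _ => zr) (t := Sum.inr 1) (by simp)
    (fun r hr => if_neg fun e => by simp [e, zr] at hr) fun _ _ => rfl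
  rw [nr_delta, mul_one] at h1
  rw [accept, final_eq, verifier, run_append, run_one]
  refine acc_ge _ _ _ ?_ (fun y hy => ?_) h1
  · rw [sw, nr_act A (ask_ok (by simp)).1, H.tab.fw.iso, nr_tn, nr_delta, H.one, mul_one]
  · obtain ⟨x, z, r, rfl⟩ := pt_eta y
    refine H.tab.fw.zero _ _ (funext fun x => ?_) _
    have hr : r (Sum.inr 1) = false := hy
    rw [tn, if_neg fun e => by simpa [hr, h0, zr] using congrFun e (Sum.inr 1), zero_mul, zero_mul,
      Pi.zero_apply]

/-- The correction of one low qubit of the copy. -/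
def fl (b : Bl n × Fin (lg n) → (Fin (n * n - lg n) → Bool) → Bool) (c : Bl n × Fin (lg n))
    (r : Wit n ⊕ Fin 2 → Bool) : Wit n ⊕ Fin 2 → Bool :=
  Function.update r (Sum.inl (c.1, Sum.inr c.2))
    (xor (r (Sum.inl (c.1, Sum.inr c.2))) (b c fun k => r (Sum.inl (c.1, Sum.inl k))))

lemma xr_zr {β : Type} (a : β → Bool) : xr zr a = a := by
  funext i; simp [xr, zr]

lemma Pos.round (H : Pos A enc dec p lab T κ Low Bad Ψ Φ ε h) (c : Bl n × Fin (lg n))
    (a : (Wit n ⊕ Fin 2 → Bool) → ℂ) (ha : ∀ r, r (Sum.inr 0) = true → a r = 0) :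
    nr (run A (round c) (lift (tn a Ψ fun _ => zr)) -
      lift (tn (fun r => a (fl (fun c s => h (lab c s)) c r)) Ψ fun _ => zr)) ≤ 4 * ε * nr a := by
  have h1 := H.core a (fun r => lab c fun k => r (Sum.inl (c.1, Sum.inl k)))
    (t := Sum.inl (c.1, Sum.inr c.2)) (by simp) ha fun r b => by simp
  have h2 := H.tab.load_tn c (fun r => a (fl (fun c s => h (lab c s)) c r)) Ψ
    fun r => lab c fun k => r (Sum.inl (c.1, Sum.inl k))
  simp only [xr_self] at h2
  rw [← h2, ← run_reverse A (fwd n) (fun g hg => (fwd_ok g hg).2) (lift (tn (fun r => a (fl _ c r))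
    Ψ _)), H75C.round, run_append, run_append, run_append, run_append, ← run_sub, ← run_sub,
    nr_run A _ fun g hg => (load_ok c g hg).1,
    nr_run A _ fun g hg => (fwd_ok g (List.mem_reverse.1 hg)).1.1, run_one, H.tab.load_tn]
  simp only [xr_zr]
  exact h1

/-- The corrections along a list. -/
def fls (b : Bl n × Fin (lg n) → (Fin (n * n - lg n) → Bool) → Bool) :
    List (Bl n × Fin (lg n)) → (Wit n ⊕ Fin 2 → Bool) → Wit n ⊕ Fin 2 → Bool
  | [], r => r
  | c :: l, r => fl b c (fls b l r)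

lemma Pos.rounds (H : Pos A enc dec p lab T κ Low Bad Ψ Φ ε h) (l : List (Bl n × Fin (lg n)))
    (a : (Wit n ⊕ Fin 2 → Bool) → ℂ) (ha : ∀ r, r (Sum.inr 0) = true → a r = 0) :
    nr (run A (l.map H75C.round).flatten (lift (tn a Ψ fun _ => zr)) -
      lift (tn (fun r => a (fls (fun c s => h (lab c s)) l r)) Ψ fun _ => zr)) ≤
      l.length * (4 * ε * nr a) := by
  induction l generalizing a with
  | nil => simp [run, fls, nr_zero]
  | cons c l ih =>
    have h1 := H.round c a ha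
    have h2 := ih (fun r => a (fl (fun c s => h (lab c s)) c r)) fun r hr =>
      ha _ (by simpa [fl] using hr)
    have h3 : nr (fun r => a (fl (fun c s => h (lab c s)) c r)) = nr a :=
      nr_flip a (fun r => h (lab c fun k => r (Sum.inl (c.1, Sum.inl k)))) fun r b => by simp
    rw [← nr_run A _ fun g hg => (rounds_ok l g hg).1, run_sub] at h1
    rw [List.map_cons, List.flatten_cons, run_append, ← sub_add_sub_cancel _
      (run A (l.map H75C.round).flatten (lift (tn (fun r => a (fl (fun c s => h (lab c s)) c r)) Ψ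
        fun _ => zr)))]
    refine (nr_add_le _ _).trans ((add_le_add h1 h2).trans_eq ?_)
    rw [h3, List.length_cons]
    push_cast
    ring

lemma fls_val (b : Bl n × Fin (lg n) → (Fin (n * n - lg n) → Bool) → Bool)
    (l : List (Bl n × Fin (lg n))) (hl : l.Nodup) (r : Wit n ⊕ Fin 2 → Bool) :
    (∀ k, fls b l r (Sum.inr k) = r (Sum.inr k)) ∧
    (∀ i k, fls b l r (Sum.inl (i, Sum.inl k)) = r (Sum.inl (i, Sum.inl k))) ∧
    ∀ i j, fls b l r (Sum.inl (i, Sum.inr j)) = xor (r (Sum.inl (i, Sum.inr j)))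
      (if (i, j) ∈ l then b (i, j) fun k => r (Sum.inl (i, Sum.inl k)) else false) := by
  induction l with
  | nil => simp [fls]
  | cons c l ih =>
    rw [List.nodup_cons] at hl
    obtain ⟨h1, h2, h3⟩ := ih hl.2
    refine ⟨fun k => by simp [fls, fl, h1], fun i k => by simp [fls, fl, h2], fun i j => ?_⟩
    by_cases e : (i, j) = c
    · subst e
      simp [fls, fl, h2, h3, hl.1]
    · rw [fls, fl, Function.update_of_ne (by simpa [Prod.ext_iff] using e), h3]
      simp [e]

lemma final_cloner (w : (Wit n → Bool) → ℂ) : final A (cloner n) w =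
    run A ((FinEnum.toList _).map round).flatten
      (lift (tn (ex fun x => prep n x zr) w fun _ => zr)) := by
  rw [final_eq, cloner, run_cons, ← on_copy A (prep n)]
  rfl

theorem Pos.clone {ω : Bl n → (Fin (n * n - lg n) → Bool) → Fin (lg n) → Bool}
    (H : Pos A enc dec p lab T κ Low Bad (pv fun i => st (ω i)) Φ ε h)
    (hω : ∀ c s, h (lab c s) = ω c.1 s c.2) :
    1 - 2 * (Fintype.card (Bl n × Fin (lg n)) * (4 * ε)) ≤ fidelity A (pv fun i => st (ω i)) := by
  have e : (fun r : Wit n ⊕ Fin 2 → Bool => ex (fun x => prep n x zr)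
      (fls (fun c s => h (lab c s)) (FinEnum.toList _) r)) = ex (pv fun i => st (ω i)) := by
    funext r
    obtain ⟨h1, h2, h3⟩ := fls_val (fun c s => h (lab c s)) _ FinEnum.nodup_toList r
    generalize fls (fun c s => h (lab c s)) (FinEnum.toList _) r = r' at h1 h2 h3
    simp only [ex, h1, prep, h2, h3, FinEnum.mem_toList, if_true, hω]
    rfl
  have h1 := H.rounds (FinEnum.toList _) (ex fun x => prep n x zr) fun r hr =>
    if_neg fun e => by simpa [hr, zr] using congrFun e 0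
  have h2 : nr (ex (K := Fin 2) fun x => prep n x zr) = 1 := by
    rw [nr_ex, nr, show (fun x => prep n x zr) = pv fun _ => fun b => blk _ _ b zr from rfl, nsq_pv,
      prod_eq_one, Real.sqrt_one]
    intro i _
    rw [← nsq_st (S := Fin (n * n - lg n)) (lg_ne (n := n)) fun _ => zr]
    congr 1
    funext b
    rw [st]
    congr 1
    funext k
    rcases k with k | k <;> simp [sh, xr, zr]
  rw [e, h2, mul_one, length_toList, ← final_cloner] at h1
  unfold fidelity
  generalize final A (cloner n) (pv fun i => st (ω i)) = v at h1 ⊢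
  exact fid_ge _ H.one v h1

end Pool.Agent.MP_36f78e_lc.H75C
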