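import Mathlib
import Pool.Agent.MP_36f78e_lc.H75T.Code
import Pool.Agent.MP_36f78e_lc.H75T.Samp
import Pool.Agent.MP_36f78e_lc.H75C.Prod

/-!
The code in terms of bits, its transpose, and the decoder.
-/

set_option linter.unusedSectionVars false

namespace Pool.Agent.MP_36f78e_lc.H75C

open Finset Matrix Pool.Agent.MP_36f78e_lc.H24 Pool.Agent.MP_36f78e_lc.H24.Cl

theorem exists_matrix (r k m t : ℕ) (hr : r ≠ 0) (hk : 2 ≤ k) (ι : Type) [Fintype ι]
    (hι : Fintype.card ι ≤ 2 ^ r) (hm : m < 2 ^ r) (htι : t ≤ Fintype.card ι) (ht0 : t ≠ 0)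
    (ht : (m + 1) * t < k) (S : Type) [Fintype S] [DecidableEq S] (hS : Fintype.card S = r * m) :
    ∃ M : Matrix (ι × S) (Fin (r * k)) (ZMod 2),
      (∀ T : Finset ι, T.card ≤ t → ∀ y : ι × S → ZMod 2, ∃ z, ∀ i ∈ T, ∀ j,
        (M *ᵥ z) (i, j) = y (i, j)) ∧
      ∀ Y : Finset (Fin (r * k) → ZMod 2), Y.card ≤ 2 ^ m → Fintype.card ι * Y.card ≤
        ∑ i, (Y.image fun z j => (M *ᵥ z) (i, j)).card + (k - 1) * m * Y.card := by
  obtain ⟨G, _, _, _, π, h1, h2, h3⟩ := H75T.exists_code r k m t hr hk ι hι hm htι ht0 ht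
  obtain ⟨i0⟩ : Nonempty ι := Fintype.card_pos_iff.1 (by omega)
  have h4 : ∀ s : G, 2 • s = 0 := fun s => by
    obtain ⟨z, hz⟩ := h2 {i0} (by simp; omega) fun _ => s
    rw [← hz i0 (mem_singleton_self _), ← map_nsmul, ZModModule.char_nsmul_eq_zero, map_zero]
  let _ : Module (ZMod 2) G := AddCommGroup.zmodModule h4
  have h5 : Module.finrank (ZMod 2) G = Module.finrank (ZMod 2) (S → ZMod 2) := by
    rw [Module.card_eq_pow_finrank (K := ZMod 2), ZMod.card] at h1
    rw [Nat.pow_right_injective le_rfl h1, Module.finrank_fintype_fun_eq_card, hS]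
  let φ := LinearEquiv.ofFinrankEq G (S → ZMod 2) h5
  let L : (Fin (r * k) → ZMod 2) →+ (ι × S → ZMod 2) :=
    AddMonoidHom.mk' (fun z a => φ (π a.1 z) a.2) fun z w => by
      funext a
      simp
  have e : ∀ z i j, (LinearMap.toMatrix' (L.toZModLinearMap 2) *ᵥ z) (i, j) = φ (π i z) j :=
    fun z i j => by rw [LinearMap.toMatrix'_mulVec]; rfl
  refine ⟨LinearMap.toMatrix' (L.toZModLinearMap 2), fun T hT y => ?_, fun Y hY => ?_⟩
  · obtain ⟨z, hz⟩ := h2 T hT fun i => φ.symm fun j => y (i, j)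
    exact ⟨z, fun i hi j => by rw [e, hz i hi, LinearEquiv.apply_symm_apply]⟩
  · refine (h3 Y hY).trans_eq (congrArg (· + _) (sum_congr rfl fun i _ => ?_))
    simp only [e]
    rw [← card_image_of_injective _ φ.injective, image_image]
    rfl

section Bits

variable {β : Type} [Fintype β] [DecidableEq β]

/-- From bits to the field with two elements. -/
def tz (x : β → Bool) : β → ZMod 2 := fun i => if x i = true then 1 else 0

/-- From the field with two elements to bits. -/
def tb (v : β → ZMod 2) : β → Bool := fun i => decide (v i = 1)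

lemma tz_tb (v : β → ZMod 2) : tz (tb v) = v := by
  funext i
  simp only [tz, tb, decide_eq_true_eq]
  generalize v i = a
  revert a
  decide

lemma tb_tz (x : β → Bool) : tb (tz x) = x := by
  funext i
  cases h : x i <;> simp [tz, tb, h]

lemma tz_inj : Function.Injective (tz (β := β)) := Function.LeftInverse.injective tb_tz

lemma tb_inj : Function.Injective (tb (β := β)) := Function.LeftInverse.injective tz_tb

/-- The sign of a bit. -/
def sg (a : ZMod 2) : ℂ := if a = 1 then -1 else 1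

lemma sg_sum (s : Finset β) (f : β → ZMod 2) : sg (∑ i ∈ s, f i) = ∏ i ∈ s, sg (f i) := by
  induction s using Finset.induction_on with
  | empty => simp [sg]
  | insert i s hi ih =>
    rw [sum_insert hi, prod_insert hi, ← ih]
    generalize f i = a
    generalize ∑ i ∈ s, f i = b
    have h : ∀ c : ZMod 2, c = 0 ∨ c = 1 := by decide
    have h2 : (1 + 1 : ZMod 2) = 0 := by decide
    rcases h a with rfl | rfl <;> rcases h b with rfl | rfl <;> simp [sg, h2]

lemma had_sg (x y : β → Bool) :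
    had β x y = sg (tz x ⬝ᵥ tz y) / ((√2 : ℝ) : ℂ) ^ Fintype.card β := by
  rw [had, prod_div_distrib, prod_const, card_univ, dotProduct, sg_sum]
  congr 1
  refine prod_congr rfl fun i _ => ?_
  cases h : x i <;> cases h' : y i <;> simp [tz, sg, h, h']

end Bits

variable {B S E : Type} [Fintype B] [DecidableEq B] [Fintype S] [DecidableEq S] [Fintype E]
  [DecidableEq E]

lemma eq_zero_of_supp {ι : Type} [Fintype ι] [DecidableEq ι] {M : Matrix (ι × S) E (ZMod 2)}
    {T : Finset ι} (h : ∀ y : ι × S → ZMod 2, ∃ z, ∀ i ∈ T, ∀ j, (M *ᵥ z) (i, j) = y (i, j))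
    {v : ι × S → ZMod 2} (h1 : ∀ i ∉ T, ∀ j, v (i, j) = 0) (h2 : v ᵥ* M = 0) : v = 0 := by
  funext a
  obtain ⟨z, hz⟩ := h (Pi.single a 1)
  have h3 : v ⬝ᵥ M *ᵥ z = v ⬝ᵥ Pi.single a 1 := sum_congr rfl fun b _ => by
    by_cases hb : b.1 ∈ T
    · rw [hz b.1 hb b.2]
    · rw [h1 b.1 hb b.2, zero_mul, zero_mul]
  rw [dotProduct_mulVec, h2, zero_dotProduct, dotProduct_single, mul_one] at h3
  exact h3.symm

/-- The word given by the blocks, the two label symbols and one more symbol. -/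
def word (c : (B × S) ⊕ (Fin 2 × S) → Bool) (s : S → Bool) : Option (B ⊕ Fin 2) × S → ZMod 2
  | (none, j) => tz s j
  | (some (Sum.inl i), j) => tz c (Sum.inl (i, j))
  | (some (Sum.inr i), j) => tz c (Sum.inr (i, j))

theorem exists_dec (M : Matrix (Option (B ⊕ Fin 2) × S) E (ZMod 2)) {w a K : ℕ}
    (h1 : ∀ T : Finset (Option (B ⊕ Fin 2)), T.card ≤ 2 * w + 3 → ∀ y : _ × S → ZMod 2,
      ∃ z, ∀ i ∈ T, ∀ j, (M *ᵥ z) (i, j) = y (i, j))
    (h2 : ∀ Y : Finset (E → ZMod 2), Y.card ≤ K → Fintype.card (Option (B ⊕ Fin 2)) * Y.card ≤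
      ∑ i, (Y.image fun z j => (M *ᵥ z) (i, j)).card + a * Y.card) :
    ∃ (enc : ((B × S) ⊕ (Fin 2 × S) → Bool) → E → Bool)
      (dec p : (E → Bool) → (B × S) ⊕ (Fin 2 × S) → Bool) (κ : ℂ),
      (∀ z c, had _ z (enc c) = κ * had _ (p z) c) ∧
      (∀ c, wt (fun i => c (Sum.inl i)) ≤ w → dec (enc c) = c) ∧
      (univ.image dec).card * 2 ^ Fintype.card S ≤ 2 ^ Fintype.card E ∧
      ∀ Y : Finset (E → Bool), Y.card ≤ K → Fintype.card B * Y.card ≤
        H75T.gam (fun z i j => p z (Sum.inl (i, j))) Y + a * Y.card := by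
  classical
  have inj : ∀ c c' : (B × S) ⊕ (Fin 2 × S) → Bool, ∀ s s', wt (fun i => c (Sum.inl i)) ≤ w →
      wt (fun i => c' (Sum.inl i)) ≤ w → word c s ᵥ* M = word c' s' ᵥ* M → c = c' ∧ s = s' := by
    intro c c' s s' hc hc' h
    have h3 := eq_zero_of_supp (v := word c s - word c' s') (h1 (insertNone
      (((univ.filter fun i => (fun k => c (Sum.inl (i, k))) ≠ zr) ∪
        univ.filter fun i => (fun k => c' (Sum.inl (i, k))) ≠ zr).disjSum univ)) (by
      rw [card_insertNone, card_disjSum, card_univ, Fintype.card_fin]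
      exact Nat.succ_le_succ (Nat.add_le_add_right
        (((card_union_le _ _).trans (Nat.add_le_add hc hc')).trans_eq (two_mul w).symm) 2))) (by
      rintro (_ | i | i) hi j
      · simp at hi
      · simp only [some_mem_insertNone, inl_mem_disjSum, mem_union, mem_filter, mem_univ, true_and,
          not_or, not_not] at hi
        simp only [Pi.sub_apply, word, tz, congrFun hi.1 j, congrFun hi.2 j, sub_self]
      · simp at hi) (by rw [sub_vecMul, h, sub_self])
    rw [sub_eq_zero] at h3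
    refine ⟨tz_inj (funext ?_), tz_inj (funext fun j => congrFun h3 (none, j))⟩
    rintro (⟨i, j⟩ | ⟨i, j⟩)
    exacts [congrFun h3 (some (Sum.inl i), j), congrFun h3 (some (Sum.inr i), j)]
  refine ⟨fun c => tb (word c zr ᵥ* M), fun e => if h : ∃ c, wt (fun i => c (Sum.inl i)) ≤ w ∧
    tb (word c zr ᵥ* M) = e then h.choose else zr, fun z => tb (Sum.elim
      (fun b => (M *ᵥ tz z) (some (Sum.inl b.1), b.2)) fun b => (M *ᵥ tz z) (some (Sum.inr b.1), b.2)),
    ((√2 : ℝ) : ℂ) ^ Fintype.card ((B × S) ⊕ (Fin 2 × S)) / ((√2 : ℝ) : ℂ) ^ Fintype.card E,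
    fun z c => ?_, fun c hc => ?_, ?_, fun Y hY => ?_⟩
  · rw [had_sg, had_sg, tz_tb, tz_tb, div_mul_div_comm, mul_comm (_ ^ Fintype.card E),
      mul_div_mul_left _ _ (pow_ne_zero _ sqrt_two_ne), dotProduct_comm, ← dotProduct_mulVec]
    congr 2
    simp [dotProduct, Fintype.sum_prod_type, Fintype.sum_option, Fintype.sum_sum_type, word, tz, zr,
      mul_comm]
  · have h : ∃ c', wt (fun i => c' (Sum.inl i)) ≤ w ∧ tb (word c' zr ᵥ* M) = tb (word c zr ᵥ* M) :=
      ⟨c, hc, rfl⟩
    beta_reduce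
    rw [dif_pos h]
    exact (inj _ _ _ _ h.choose_spec.1 hc (tb_inj h.choose_spec.2)).1
  · have h3 := card_le_card_of_injOn (s := (univ.filter fun c : (B × S) ⊕ (Fin 2 × S) → Bool =>
      wt (fun i => c (Sum.inl i)) ≤ w) ×ˢ (univ : Finset (S → Bool))) (t := univ)
      (fun x => word x.1 x.2 ᵥ* M) (fun _ _ => mem_univ _) fun x hx x' hx' h =>
        Prod.ext_iff.2 (inj _ _ _ _ (mem_filter.1 (mem_product.1 hx).1).2
          (mem_filter.1 (mem_product.1 hx').1).2 h)
    rw [card_product, card_univ, card_univ, Fintype.card_fun, Fintype.card_fun, Fintype.card_bool,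
      ZMod.card] at h3
    refine le_trans (Nat.mul_le_mul_right _ (card_le_card fun c hc => ?_)) h3
    obtain ⟨e, -, rfl⟩ := mem_image.1 hc
    refine mem_filter.2 ⟨mem_univ _, ?_⟩
    split_ifs with h
    · exact h.choose_spec.1
    · simp [wt, zr, funext_iff]
  · have h3 := h2 (Y.image tz) (card_image_le.trans hY)
    rw [card_image_of_injective _ tz_inj, Fintype.sum_option, Fintype.sum_sum_type,
      Fin.sum_univ_two, Fintype.card_option, Fintype.card_sum, Fintype.card_fin] at h3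
    have h4 : ∀ i, ((Y.image tz).image fun z j => (M *ᵥ z) (i, j)).card ≤ Y.card :=
      fun i => card_image_le.trans card_image_le
    have h5 : ∑ i : B, ((Y.image tz).image fun z j => (M *ᵥ z) (some (Sum.inl i), j)).card =
        H75T.gam (fun z i j => tb (Sum.elim (fun b : B × S => (M *ᵥ tz z) (some (Sum.inl b.1), b.2))
          fun b : Fin 2 × S => (M *ᵥ tz z) (some (Sum.inr b.1), b.2)) (Sum.inl (i, j))) Y :=
      sum_congr rfl fun i _ => by
        rw [← card_image_of_injective _ tb_inj, image_image, image_image]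
        rfl
    rw [← h5]
    nlinarith [h4 none, h4 (some (Sum.inr 0)), h4 (some (Sum.inr 1))]

end Pool.Agent.MP_36f78e_lc.H75C
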