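import Mathlib
import Pool.Agent.MP_36f78e_lc.H75T.Samp
import Pool.Agent.MP_36f78e_lc.H75C.Run

/-!
The oracle with given tables, and the sampling argument.
-/

set_option linter.unusedSectionVars false

namespace Pool.Agent.MP_36f78e_lc.H75C

open Finset Matrix Pool.Agent.MP_36f78e_lc.H24 Pool.Agent.MP_36f78e_lc.H24.Cl
open scoped BigOperators

/-- Read an assignment from a string. -/
def rd (β : Type) [FinEnum β] (s : List Bool) (b : β) : Bool :=
  s.getD ((FinEnum.toList β).idxOf b) false

lemma rd_all {α β : Type} [FinEnum β] (f : β → α) (l : List α) (y : α → Bool) :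
    rd β ((all f ++ l).map y) = fun b => y (f b) := by
  funext b
  have h := List.idxOf_lt_length_of_mem (FinEnum.mem_toList b)
  rw [rd, List.getD_eq_getElem?_getD, List.map_append, List.getElem?_append_left (by
    simpa [all] using h), all, List.getElem?_map, List.getElem?_map,
    List.getElem?_idxOf (FinEnum.mem_toList b)]
  rfl

/-- The input length to which a string belongs. -/
def idx (s : List Bool) : ℕ := (Nat.unpair (Nat.unpair s.length).1).1

variable {n : ℕ}

lemma name_inj : Function.Injective fun ν : Name n => (FinEnum.equiv ν : ℕ) :=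
  Fin.val_injective.comp FinEnum.equiv.injective

/-- The string that asks for the point `z`. -/
def code (z : Wk n → Bool) : List Bool :=
  (src (Sum.inr (Sum.inr (Sum.inr ()))) (all wk)).map (pt zr z zr)

lemma code_inj : Function.Injective (code (n := n)) := fun z z' h => by
  have := congrArg (rd (Wk n)) h
  rwa [code, code, src, rd_all, rd_all] at this

/-- The oracle with the public tables `G` and the set `T` at the length `n`. -/
noncomputable def orc (A0 : List Bool → Bool) (G : Name n → List Bool → Bool)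
    (T : Finset (Wk n → Bool)) (s : List Bool) : Bool :=
  decide (s ∈ T.image code) || if idx s = n then Function.extend
    (fun ν : Name n => (FinEnum.equiv ν : ℕ)) G (fun _ _ => false)
      (Nat.unpair (Nat.unpair s.length).1).2 s else A0 s

variable (A0 : List Bool → Bool) (G : Name n → List Bool → Bool) (T : Finset (Wk n → Bool))

lemma orc_off {s : List Bool} (h : idx s ≠ n) : orc A0 G T s = A0 s := by
  rw [orc, if_neg h, decide_eq_false, Bool.false_or]
  intro hs
  obtain ⟨z, -, rfl⟩ := mem_image.1 hs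
  exact h (by rw [idx, code, List.length_map, length_src, Nat.unpair_pair, Nat.unpair_pair])

lemma orc_src (ν : Name n) (l : List (Wire n)) (y : Wire n → Bool) :
    orc A0 G T ((src ν l).map y) =
      (decide ((src ν l).map y ∈ T.image code) || G ν ((src ν l).map y)) := by
  rw [orc, idx, List.length_map, length_src, Nat.unpair_pair, Nat.unpair_pair, if_pos rfl,
    name_inj.extend_apply]

lemma orc_pub {ν : Name n} (h : ν ≠ Sum.inr (Sum.inr (Sum.inr ()))) (l : List (Wire n))
    (y : Wire n → Bool) : orc A0 G T ((src ν l).map y) = G ν ((src ν l).map y) := by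
  rw [orc_src, decide_eq_false, Bool.false_or]
  intro hs
  obtain ⟨z, -, e⟩ := mem_image.1 hs
  have := congrArg List.length e
  rw [code, List.length_map, List.length_map, length_src, length_src] at this
  exact h (name_inj (Nat.pair_eq_pair.1 (Nat.pair_eq_pair.1 this).1).2).symm

lemma orc_agree {Δ T : Finset (Wk n → Bool)} (h : Δ ⊆ T) :
    ∀ s ∉ (T \ Δ).image code, orc A0 G Δ s = orc A0 G T s := by
  intro s hs
  unfold orc
  congr 1
  refine decide_eq_decide.2 ⟨fun h1 => image_subset_image h h1, fun h1 => ?_⟩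
  obtain ⟨z, hz, rfl⟩ := mem_image.1 h1
  by_contra h2
  exact hs (mem_image_of_mem _ (mem_sdiff.2 ⟨hz, fun h3 => h2 (mem_image_of_mem _ h3)⟩))

theorem exists_tab (enc : (Wit n ⊕ Lab n → Bool) → Wk n → Bool)
    (dec : (Wk n → Bool) → Wit n ⊕ Lab n → Bool)
    (lab : Bl n × Fin (lg n) → (Fin (n * n - lg n) → Bool) → Lab n → Bool) :
    ∃ G : Name n → List Bool → Bool, ∀ A0 T, Tab (orc A0 G T) enc dec lab T := by
  refine ⟨Sum.elim (fun k s => enc (rd _ s) k) (Sum.elim (fun a s => dec (rd _ s) a)
    (Sum.elim (fun c s => lab c.1 (rd _ s) c.2) fun _ _ => false)), fun A0 T =>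
    ⟨fun k y => ?_, fun a y => ?_, fun c a y => ?_, fun y hy => ?_⟩⟩
  · rw [orc_pub _ _ _ (by simp), src, Sum.elim_inl, rd_all]
  · rw [orc_pub _ _ _ (by simp), src, Sum.elim_inr, Sum.elim_inl, rd_all]
  · rw [orc_pub _ _ _ (by simp), src, Sum.elim_inr, Sum.elim_inr, Sum.elim_inl, rd_all]
  · have e : (src (Sum.inr (Sum.inr (Sum.inr ()))) (all wk)).map y = code fun k => y (wk k) := by
      refine List.map_congr_left fun a ha => ?_
      rcases List.mem_append.1 ha with h | h
      · obtain ⟨k, rfl⟩ := mem_all.1 h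
        rfl
      · rw [(List.mem_replicate.1 h).2]
        exact hy
    rw [orc_src, Sum.elim_inr, Sum.elim_inr, Sum.elim_inr, Bool.or_false, e]
    exact decide_eq_decide.2 code_inj.mem_finset_image

/-- The verifier with classical witnesses errs. -/
def Err (V : Verifier) (A : List Bool → Bool) (P N : Prop) : Prop :=
  (P ∧ ∀ y, V.accProb A (Pi.single y 1) < 2 / 3) ∨ (N ∧ ∃ y, 1 / 3 < V.accProb A (Pi.single y 1))

theorem exists_err {Z Ω : Type} [Fintype Z] [DecidableEq Z] [Fintype Ω] [Nonempty Ω]
    {cd : Z → List Bool} (hcd : Function.Injective cd) (A : Finset Z → List Bool → Bool)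
    (hA : ∀ Δ T, Δ ⊆ T → ∀ s ∉ (T \ Δ).image cd, A Δ s = A T s) (O : Ω → Finset Z)
    (V : Verifier) (hV : V.Valid) (P N : Finset Z → Prop) (hP : ∀ ω, P (O ω))
    (hN : ∀ Δ : Finset Z, Δ.card ≤ V.p + 1 → N Δ) {c : ℕ}
    (hup : ∀ Y : Finset Z, Y.card ≤ V.p + 1 →
      𝔼 ω, (if Y ⊆ O ω then 1 else 0 : ℝ) ≤ (1 / 2 ^ c) ^ Y.card)
    (h3 : 1152 * (V.queries + 1) ^ 2 ≤ 2 ^ c) : ∃ X, Err V (A X) (P X) (N X) := by
  by_contra hcon
  have hc' : ∀ X, ¬ Err V (A X) (P X) (N X) := fun X h => hcon ⟨X, h⟩
  set T : ℝ := (V.queries : ℝ) + 1 with hTd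
  have hT0 : 0 < T := by positivity
  have key := H75T.sampler_cl (fun (y : Fin V.p → Bool) Y z =>
      mass (A Y) V.gates (init V.q (Pi.single y 1)) (cd z) / T)
    (fun _ _ _ => div_nonneg (mass_nonneg _ _ _ _) hT0.le) (fun y Y => by
      have h := sum_mass_basis hV (A Y) y (univ.image cd)
      rw [sum_image hcd.injOn] at h
      rw [← sum_div, div_le_one hT0]
      linarith) id (fun _ _ => subset_insert _ _) O
    (ρ := 1 / 2 ^ c) (η := 1 / (144 * T) / T) (by positivity) (by positivity)
    (fun Δ _ => by rw [id]; omega) hup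
    (fun ω => by
      obtain ⟨y, hy'⟩ : ∃ y, 2 / 3 ≤ V.accProb (A (O ω)) (Pi.single y 1) := by
        by_contra h
        push Not at h
        exact hc' _ (Or.inl ⟨hP ω, h⟩)
      refine ⟨y, fun Δ hΔ hcard => ?_⟩
      have h4 : V.accProb (A Δ) (Pi.single y 1) ≤ 1 / 3 := by
        by_contra h
        exact hc' _ (Or.inr ⟨hN Δ hcard, y, not_le.1 h⟩)
      have h5 := mass_ge hV (hA _ _ hΔ) _ h4 hy'
      rw [sum_image hcd.injOn] at h5
      rw [← sum_div, id, inter_eq_left.2 hΔ]
      exact div_le_div_of_nonneg_right h5 hT0.le)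
  set η : ℝ := 1 / (144 * T) / T with hη
  have hη0 : 0 < η := by positivity
  have h4 : 4 * (1 / 2 ^ c : ℝ) ≤ η / 2 := by
    have e2 : (1152 * T ^ 2 : ℝ) ≤ 2 ^ c := by rw [hTd]; exact_mod_cast h3
    refine (mul_le_mul_of_nonneg_left (one_div_le_one_div_of_le (by positivity) e2)
      (by norm_num)).trans (le_of_eq ?_)
    rw [hη]
    field_simp
    norm_num
  have h5 := key.trans (mul_le_mul_of_nonneg_left (pow_le_pow_left₀ (by positivity) h4 _)
    (Nat.cast_nonneg _))
  simp only [Fintype.card_pi, Fintype.card_bool, prod_const, card_univ, Fintype.card_fin,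
    Nat.cast_pow, Nat.cast_ofNat] at h5
  clear_value η
  rw [div_pow, pow_succ (2 : ℝ), ← mul_div_assoc, mul_div_mul_left _ _ (by positivity)] at h5
  have h6 : 0 < η ^ (V.p + 1) := by positivity
  linarith

end Pool.Agent.MP_36f78e_lc.H75C
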