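import Mathlib
import Pool.Agent.MP_36f78e_lc.H75C.Clone
import Pool.Agent.MP_36f78e_lc.H75C.Code
import Pool.Agent.MP_36f78e_lc.H75C.Orc

/-!
The choice of the parameters and the lower bound at one input length.
-/

set_option linter.unusedSectionVars false

namespace Pool.Agent.MP_36f78e_lc.H75C

open Finset Matrix Pool.Agent.MP_36f78e_lc.H24 Pool.Agent.MP_36f78e_lc.H24.Cl
open scoped BigOperators

/-- Positive instances. -/
def Yes (A : List Bool → Bool) (n : ℕ) : Prop :=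
  ∃ S : Finset (Wit n → Bool), S.Nonempty ∧ 1 - 1 / 2 ^ n ≤ accept A (unif S) ∧
    1 - 1 / 2 ^ n ≤ fidelity A (unif S)

/-- Negative instances. -/
def No (A : List Bool → Bool) (n : ℕ) : Prop :=
  ∀ w : (Wit n → Bool) → ℂ, ∑ y, ‖w y‖ ^ 2 = 1 → accept A w ≤ 1 / 2 ^ n

lemma pow_four_le {n : ℕ} (h : 32 ≤ n) : 3072 * n ^ 4 ≤ 2 ^ n := by
  induction n, h using Nat.le_induction with
  | base => norm_num
  | succ n hn ih =>
    have h1 : (32 * (n + 1)) ^ 4 ≤ (33 * n) ^ 4 := Nat.pow_le_pow_left (by omega) 4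
    rw [mul_pow, mul_pow] at h1
    rw [pow_succ 2]
    omega

lemma lg_pow (n : ℕ) : 2 ^ lg n = 256 * (2 ^ Nat.log 2 n) ^ 2 := by
  rw [lg]; ring

lemma lg_le (n : ℕ) : lg n ≤ 2 * n + 8 := by
  have := Nat.log_le_self 2 n
  rw [lg]; omega

lemma exists_lab {C Y : Type} [Fintype C] [Fintype Y] [DecidableEq Y]
    (h : Fintype.card C < 2 ^ Fintype.card Y) :
    ∃ f : C → Y → Bool, Function.Injective f ∧ ∀ c, f c ≠ zr := by
  obtain ⟨φ⟩ : Nonempty (Option C ↪ (Y → Bool)) := Function.Embedding.nonempty_of_card_le (by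
    rwa [Fintype.card_option, Fintype.card_fun, Fintype.card_bool])
  refine ⟨fun c => xr (φ (some c)) (φ none), fun c c' e => ?_, fun c e => ?_⟩
  · have := (xr_swap _ _ _).1 e
    rw [← (xr_swap _ _ _).1 rfl] at this
    exact Option.some.inj (φ.injective this)
  · cases φ.injective ((xr_eq_zr _ _).1 e)

lemma mem_rs {Z ι S S' : Type} [Fintype Z] [Fintype ι] {D : ℕ} {p : Z → ι → S}
    {e : S ≃ S' × Fin D} {ω : ι × S' → Fin D} {z : Z} :
    z ∈ H75T.rs p e ω ↔ ∀ i, ¬ ω (i, (e (p z i)).1) = (e (p z i)).2 := by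
  simp [H75T.rs]

variable {n : ℕ} {A : List Bool → Bool} {enc : (Wit n ⊕ Lab n → Bool) → Wk n → Bool}
  {dec p : (Wk n → Bool) → Wit n ⊕ Lab n → Bool}
  {lab : Bl n × Fin (lg n) → (Fin (n * n - lg n) → Bool) → Lab n → Bool}
  {T : Finset (Wk n → Bool)}

lemma Tab.no (hA : Tab A enc dec lab T)
    (h : T.card * (univ.image dec).card * 2 ^ n ≤ 2 ^ (n * 2 ^ lg n)) : No A n := fun w hw => by
  refine (hA.sound w).trans ?_
  rw [nsq, hw, mul_one, ← mul_div_assoc, div_le_div_iff₀ (by positivity) (by positivity), one_mul]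
  exact_mod_cast h

lemma Tab.yes (hA : Tab A enc dec lab T) {κ : ℂ} (h1 : ∀ z c, had _ z (enc c) = κ * had _ (p z) c)
    (h2 : ∀ c, wt (fun i => c (Sum.inl i)) ≤ 11 * n + 28 + 1 → dec (enc c) = c)
    (ω : Bl n → (Fin (n * n - lg n) → Bool) → Fin (lg n) → Bool) (h : (Lab n → Bool) → Bool)
    (h0 : h zr = true) (hω : ∀ c s, h (lab c s) = ω c.1 s c.2)
    (hT : ∀ z, (∀ i, ¬ ω i (fun k => p z (Sum.inl (i, Sum.inl k))) =
      fun k => p z (Sum.inl (i, Sum.inr k))) → decide (z ∈ T) = h fun k => p z (Sum.inr k))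
    (hm : (3 * n + 11) * 2 ^ lg n + 1 ≤ 2 ^ n) (hm' : (3 * n + 11) * 2 ^ lg n * lg n ≤ 2 ^ n) :
    Yes A n := by
  have h3 : ∀ i, nsq (st (ω i)) = 1 := fun i => nsq_st lg_ne _
  obtain ⟨Φ, hΦ⟩ := split_pv (fun i => st (ω i)) h3 (ε := 1 / 2 ^ (2 * n + 3))
    (fun i => st_hat lg_ne _) (11 * n + 28)
    (fun i b => ω i (fun k => b (Sum.inl k)) = fun k => b (Sum.inr k))
    (fun i b => st_bad _ b) (by positivity) (by
      have e1 : (1 + 1 / 2 ^ lg n : ℝ) ^ 2 ^ lg n ≤ 2 ^ 2 := by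
        have e2 : (1 + 1 / 2 ^ lg n : ℝ) ≤ Real.exp (1 / 2 ^ lg n) := by
          rw [add_comm]; exact Real.add_one_le_exp _
        refine (pow_le_pow_left₀ (by positivity) e2 _).trans ?_
        rw [← Real.exp_nat_mul]
        push_cast
        rw [mul_one_div_cancel (by positivity)]
        linarith [Real.exp_one_lt_d9]
      have e2 : (((3 * n + 11) * 2 ^ lg n : ℕ) + 1 : ℝ) ≤ 2 ^ n := by exact_mod_cast hm
      rw [Fintype.card_fin]
      calc _ ≤ (2 : ℝ) ^ n * ((2 ^ 2) ^ (3 * n + 11) / 2 ^ (11 * n + 28)) := by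
            rw [mul_comm (3 * n + 11), pow_mul] at *
            gcongr
        _ = _ := by rw [← pow_mul]; field_simp; ring)
  have h4 : nsq (pv fun i => st (ω i)) = 1 := by rw [nsq_pv, prod_eq_one fun i _ => h3 i]
  have H : Pos A enc dec p lab T κ _ _ _ Φ _ h := ⟨hA, h1, h2, hΦ,
    fun z hz => hT z fun i hi => hz i (mem_filter.2 ⟨mem_univ _, hi⟩), by
      rw [nr, h4, Real.sqrt_one]⟩
  obtain ⟨S, hS, e⟩ := pv_unif lg_ne ω
  refine ⟨S, hS, ?_⟩
  rw [← e]
  refine ⟨le_trans (sub_le_sub_left ?_ 1) (H.complete h0),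
    le_trans (sub_le_sub_left ?_ 1) (H.clone hω)⟩
  · rw [show (4 * (1 / 2 ^ (2 * n + 3)) : ℝ) ^ 2 = 1 / 2 ^ (4 * n + 2) by field_simp; ring]
    exact one_div_le_one_div_of_le (by positivity) (pow_le_pow_right₀ (by norm_num) (by omega))
  · have e2 : (((3 * n + 11) * 2 ^ lg n * lg n : ℕ) : ℝ) ≤ 2 ^ n := by exact_mod_cast hm'
    rw [Fintype.card_prod, Fintype.card_fin, Fintype.card_fin]
    calc _ ≤ (2 : ℝ) * (2 ^ n * (4 * (1 / 2 ^ (2 * n + 3)))) := by gcongr
      _ = _ := by field_simp; ring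

theorem finite_bound (hn : 32 ≤ n) (V : Verifier) (hV : V.Valid) (hc : V.p + V.queries < 2 ^ n)
    (A0 : List Bool → Bool) :
    ∃ A : List Bool → Bool, (∀ s, idx s ≠ n → A s = A0 s) ∧ Err V A (Yes A n) (No A n) := by
  have h4 := pow_four_le hn
  have hd : lg n ≤ 3 * n := (lg_le n).trans (by omega)
  have hnn : 32 * n ≤ n * n := Nat.mul_le_mul_right _ hn
  have hD1 : 64 * (n * n) < 2 ^ lg n := by
    have := Nat.lt_pow_succ_log_self (b := 2) (by norm_num) n
    rw [pow_succ] at this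
    rw [lg_pow]
    nlinarith
  have hD2 : 2 ^ lg n ≤ 256 * n ^ 2 := by
    rw [lg_pow]
    exact Nat.mul_le_mul_left _ (Nat.pow_le_pow_left (Nat.pow_log_le_self 2 (by omega)) 2)
  have hm : (3 * n + 11) * 2 ^ lg n ≤ 4 * n * (256 * n ^ 2) := Nat.mul_le_mul (by omega) hD2
  have hm1 : (3 * n + 11) * 2 ^ lg n * lg n ≤ 2 ^ n :=
    (Nat.mul_le_mul hm hd).trans (le_of_eq_of_le (by ring) h4)
  have hm2 : (3 * n + 11) * 2 ^ lg n + 3 ≤ 2 ^ n := by
    have : (3 * n + 11) * 2 ^ lg n * 8 ≤ (3 * n + 11) * 2 ^ lg n * lg n :=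
      Nat.mul_le_mul_left _ (by rw [lg]; omega)
    have : 11 * 1 ≤ (3 * n + 11) * 2 ^ lg n := Nat.mul_le_mul (by omega) Nat.one_le_two_pow
    omega
  have hS : Fintype.card (Sy n) = n * n := by
    rw [Fintype.card_sum, Fintype.card_fin, Fintype.card_fin, Nat.sub_add_cancel (by omega)]
  have hm3 : (3 * n + 11) * 2 ^ lg n = n * 2 ^ lg n + 2 ^ lg n * (2 * n + 11) := by ring
  have hι : Fintype.card (Option (Bl n ⊕ Fin 2)) = (3 * n + 11) * 2 ^ lg n + 3 := by
    rw [Fintype.card_option, Fintype.card_sum, Fintype.card_fin, Fintype.card_fin]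
  obtain ⟨M, hM1, hM2⟩ := exists_matrix n (2 ^ lg n) n (2 * (11 * n + 28 + 1) + 3) (by omega)
    (by omega) (Option (Bl n ⊕ Fin 2)) (hι ▸ hm2) Nat.lt_two_pow_self (by
      have : 1 * 2 ^ lg n ≤ (3 * n + 11) * 2 ^ lg n := Nat.mul_le_mul_right _ (by omega)
      omega) (by omega) (by nlinarith) (Sy n) hS
  obtain ⟨enc, dec, p, κ, h1, h2, h3, h5⟩ := exists_dec M hM1 hM2
  obtain ⟨lab, hl1, hl2⟩ := exists_lab (C := (Bl n × Fin (lg n)) × (Fin (n * n - lg n) → Bool))
    (Y := Lab n) (by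
      rw [Fintype.card_prod, Fintype.card_prod, Fintype.card_prod, hS, Fintype.card_fun]
      simp only [Fintype.card_fin, Fintype.card_bool]
      calc _ ≤ 2 ^ n * 2 ^ (n * n - lg n) := Nat.mul_le_mul_right _ hm1
        _ < _ := by
          rw [← pow_add]
          exact Nat.pow_lt_pow_right (by norm_num) (by omega))
  obtain ⟨G, hG⟩ := exists_tab enc dec fun c s => lab (c, s)
  have : NeZero (2 ^ lg n) := ⟨by positivity⟩
  have ϕ : (Fin (lg n) → Bool) ≃ Fin (2 ^ lg n) := Fintype.equivFinOfCardEq (by simp)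
  let e : (Sy n → Bool) ≃ (Fin (n * n - lg n) → Bool) × Fin (2 ^ lg n) :=
    (Equiv.sumArrowEquivProdArrow _ _ _).trans ((Equiv.refl _).prodCongr ϕ)
  let h : (Bl n × (Fin (n * n - lg n) → Bool) → Fin (2 ^ lg n)) → (Lab n → Bool) → Bool :=
    fun ω => Function.extend lab (fun c => ϕ.symm (ω (c.1.1, c.2)) c.1.2) fun _ => true
  rw [hS, Fintype.card_fin] at h3
  obtain ⟨X, hX⟩ := exists_err code_inj (orc A0 G) (fun _ _ => orc_agree A0 G)
    (fun ω => (H75T.rs (fun z i j => p z (Sum.inl (i, j))) e ω).filter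
      fun z => h ω (fun k => p z (Sum.inr k)) = true) V hV
    (fun X => Yes (orc A0 G X) n) (fun X => No (orc A0 G X) n) (c := 2 * n + 11)
    (fun ω => (hG A0 _).yes h1 h2 (fun i s => ϕ.symm (ω (i, s))) (h ω)
      (Function.extend_apply' _ _ _ fun ⟨c, hc⟩ => hl2 c hc)
      (fun c s => hl1.extend_apply _ _ _) (fun z hz => by
        rw [Bool.eq_iff_iff, decide_eq_true_eq, mem_filter]
        exact and_iff_right (mem_rs.2 fun i hi => hz i (ϕ.symm_apply_eq.2 hi)))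
      (by omega) hm1)
    (fun Δ hΔ => (hG A0 Δ).no (by
      refine le_trans ?_ h3
      calc _ ≤ 2 ^ n * (univ.image dec).card * 2 ^ n := by gcongr; omega
        _ = (univ.image dec).card * 2 ^ (n + n) := by ring
        _ ≤ _ := Nat.mul_le_mul_left _ (Nat.pow_le_pow_right (by norm_num) (by omega))))
    (fun Y hY => by
      have hD : (2 : ℝ) ≤ (2 ^ lg n : ℕ) := by exact_mod_cast (by omega : 2 ≤ 2 ^ lg n)
      have h0 : (0 : ℝ) ≤ 1 - 1 / (2 ^ lg n : ℕ) := by
        rw [sub_nonneg, div_le_one (by linarith)]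
        linarith
      have e1 : (1 - 1 / (2 ^ lg n : ℕ) : ℝ) ^ 2 ^ lg n ≤ 1 / 2 := by
        refine (Real.one_sub_div_pow_le_exp_neg (by linarith)).trans ?_
        rw [Real.exp_neg, ← one_div]
        exact one_div_le_one_div_of_le (by norm_num) (by linarith [Real.add_one_le_exp 1])
      refine le_trans (expect_le_expect fun ω _ => ?_) ((H75T.prob_rs
        (fun z i j => p z (Sum.inl (i, j))) e Y).trans ?_)
      · split_ifs with h6 h7
        · exact le_rfl
        · exact absurd (h6.trans (filter_subset _ _)) h7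
        · norm_num
        · exact le_rfl
      · have h6 := h5 Y (by omega)
        have h7 : (2 ^ lg n - 1) * n * Y.card ≤ n * 2 ^ lg n * Y.card :=
          Nat.mul_le_mul_right _ ((Nat.mul_le_mul_right _ (Nat.sub_le _ _)).trans_eq (mul_comm _ _))
        rw [(Fintype.card_fin _).trans hm3, add_mul] at h6
        refine (pow_le_pow_of_le_one h0 (by rw [sub_le_self_iff]; positivity)
          (by omega : 2 ^ lg n * (2 * n + 11) * Y.card ≤ _)).trans ?_
        rw [pow_mul, pow_mul, ← _root_.one_div_pow]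
        gcongr)
    (calc _ ≤ 2 ^ 11 * (2 ^ n) ^ 2 := Nat.mul_le_mul (by norm_num) (Nat.pow_le_pow_left (by omega) _)
      _ = _ := by ring)
  exact ⟨_, fun s => orc_off A0 G X, hX⟩

end Pool.Agent.MP_36f78e_lc.H75C
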