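import Mathlib
import Pool.Agent.MP_36f78e_lc.H24.Cl.Main
import Pool.Agent.MP_36f78e_lc.H75C.Core

/-!
The sizes of the circuits and the diagonalisation.
-/

set_option linter.unusedSectionVars false

namespace Pool.Agent.MP_36f78e_lc.H75C

open Finset Pool.Agent.MP_36f78e_lc.H24 Pool.Agent.MP_36f78e_lc.H24.Cl

section Size

lemma mul_pw (n k a b : ℕ) (h : k + a ≤ b) :
    2 ^ k * (n + 2) ^ a ≤ (n + 2) ^ b :=
  (Nat.mul_le_mul_right _ (Nat.pow_le_pow_left (Nat.le_add_left 2 n) k)).trans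
    (by rw [← pow_add]; exact Nat.pow_le_pow_right (by omega) h)

lemma lin_pw (n k b : ℕ) (h : k + 1 ≤ b) : 2 ^ k * (n + 2) ≤ (n + 2) ^ b := by
  simpa using mul_pw n k 1 b h

lemma one_pw (n b : ℕ) : 1 ≤ (n + 2) ^ b := Nat.one_le_pow _ _ (by omega)

lemma sizes (n : ℕ) : Fintype.card (Bl n × Fin (lg n)) ≤ (n + 2) ^ 17 ∧
    Fintype.card (Wit n) ≤ (n + 2) ^ 18 ∧ Fintype.card (Lab n) ≤ (n + 2) ^ 5 ∧
    Fintype.card (Wk n) ≤ (n + 2) ^ 11 := by
  have h1 : 2 ^ lg n ≤ (n + 2) ^ 10 := by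
    rw [lg_pow]
    exact (Nat.mul_le_mul_left _ (Nat.pow_le_pow_left ((Nat.pow_log_le_add_one 2 n).trans
      (Nat.le_succ _)) 2)).trans (mul_pw n 8 2 10 (by norm_num))
  have h2 : lg n ≤ (n + 2) ^ 3 := (lg_le n).trans (le_trans (by omega) (lin_pw n 2 3 (by norm_num)))
  have h3 : Fintype.card (Bl n) ≤ (n + 2) ^ 4 * (n + 2) ^ 10 := by
    rw [Fintype.card_fin]
    exact Nat.mul_le_mul (le_trans (by omega) (lin_pw n 3 4 (by norm_num))) h1
  have h4 : Fintype.card (Sy n) ≤ (n + 2) ^ 4 := by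
    rw [Fintype.card_sum, Fintype.card_fin, Fintype.card_fin]
    have e1 : n * n ≤ (n + 2) ^ 3 := by nlinarith [Nat.zero_le (n ^ 3)]
    have := mul_pw n 1 3 4 (by norm_num)
    omega
  refine ⟨?_, ?_, ?_, ?_⟩
  · rw [Fintype.card_prod, Fintype.card_fin (lg n)]
    exact (Nat.mul_le_mul h3 h2).trans_eq (by ring)
  · rw [Fintype.card_prod]
    exact (Nat.mul_le_mul h3 h4).trans_eq (by ring)
  · rw [Fintype.card_prod, Fintype.card_fin]
    exact (Nat.mul_le_mul_left _ h4).trans (mul_pw n 1 4 5 (by norm_num))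
  · rw [Fintype.card_fin]
    exact (Nat.mul_le_mul (Nat.le_add_right n 2) h1).trans_eq (by ring)

lemma card_wire (n : ℕ) : Fintype.card (Wire n) ≤ (n + 2) ^ 21 := by
  obtain ⟨-, h2, h3, h4⟩ := sizes n
  rw [Fintype.card_sum, Fintype.card_sum, Fintype.card_sum, Fintype.card_sum, Fintype.card_fin 2]
  have := mul_pw n 3 18 21 (by norm_num)
  have := mul_pw n 0 5 18 (by norm_num)
  have := mul_pw n 0 11 18 (by norm_num)
  have := one_pw n 18
  omega

lemma card_name (n : ℕ) : Fintype.card (Name n) ≤ (n + 2) ^ 25 := by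
  obtain ⟨h1, h2, h3, h4⟩ := sizes n
  rw [Fintype.card_sum, Fintype.card_sum, Fintype.card_sum, Fintype.card_sum, Fintype.card_unit,
    Fintype.card_prod (Bl n × Fin (lg n))]
  have : _ ≤ (n + 2) ^ 22 := (Nat.mul_le_mul h1 h3).trans_eq (pow_add _ _ _).symm
  have := mul_pw n 3 22 25 (by norm_num)
  have := mul_pw n 0 5 22 (by norm_num)
  have := mul_pw n 0 11 22 (by norm_num)
  have := mul_pw n 0 18 22 (by norm_num)
  have := one_pw n 22
  omega

lemma valid_of_ok {n : ℕ} {gs : List (Gate (Wire n))} (h : ∀ g ∈ gs, Ok n g)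
    (h' : gs.length ≤ (n + 2) ^ 100) : Valid ((n + 2) ^ 100) gs := by
  refine ⟨h', fun U hU => (h _ hU).1, fun l t hl => ⟨(h _ hl).1, ?_⟩⟩
  obtain ⟨ν, k, h1, h2⟩ := (h _ hl).2 l t rfl
  have h3 : (FinEnum.equiv ν : ℕ) < (n + 2) ^ 25 :=
    ((FinEnum.equiv ν).2.trans_eq FinEnum.card_eq_fintypeCard).trans_le (card_name n)
  have h4 := lin_pw n 0 25 (by norm_num)
  have h5 : Nat.pair n (FinEnum.equiv ν) < (n + 2) ^ 50 :=
    (Nat.pair_lt_max_add_one_sq _ _).trans_le ((Nat.pow_le_pow_left (by omega) 2).trans_eq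
      (pow_mul (n + 2) 25 2).symm)
  have h6 := card_wire n
  have h7 := mul_pw n 1 21 50 (by norm_num)
  have h8 := one_pw n 21
  rw [h2]
  exact (Nat.pair_lt_max_add_one_sq _ _).le.trans ((Nat.pow_le_pow_left (by omega) 2).trans_eq
    (pow_mul (n + 2) 50 2).symm)

lemma length_fwd (n : ℕ) : (fwd n).length ≤ (n + 2) ^ 21 := by
  have h := card_wire n
  rw [Fintype.card_sum, Fintype.card_sum (α := Wk n), Fintype.card_sum (β := Fin 2),
    Fintype.card_fin 2] at h
  rw [fwd, List.length_cons, List.length_append, List.length_append, length_all, length_all,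
    List.length_singleton]
  omega

lemma verifier_valid (n : ℕ) : Valid ((n + 2) ^ 100) (verifier n) := by
  refine valid_of_ok verifier_ok ?_
  have := length_fwd n
  have := mul_pw n 1 21 100 (by norm_num)
  have := one_pw n 21
  rw [verifier, List.length_append, List.length_singleton]
  omega

lemma cloner_valid (n : ℕ) : Valid ((n + 2) ^ 100) (cloner n) := by
  refine valid_of_ok cloner_ok ?_
  obtain ⟨h1, -, h3, -⟩ := sizes n
  have h4 : ∀ c : Bl n × Fin (lg n), (round c).length ≤ (n + 2) ^ 24 := fun c => by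
    have := length_fwd n
    have := mul_pw n 3 21 24 (by norm_num)
    have := mul_pw n 0 5 21 (by norm_num)
    have := one_pw n 21
    simp only [round, List.length_append, List.length_singleton, List.length_reverse, load,
      length_all]
    omega
  have h5 : ∀ l : List (Bl n × Fin (lg n)),
      (l.map round).flatten.length ≤ l.length * (n + 2) ^ 24 := fun l => by
    induction l with
    | nil => simp
    | cons c l ih =>
      rw [List.map_cons, List.flatten_cons, List.length_append, List.length_cons, add_one_mul]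
      have := h4 c
      omega
  have h6 := h5 (FinEnum.toList _)
  rw [length_toList] at h6
  have h7 : _ ≤ (n + 2) ^ 41 :=
    (h6.trans (Nat.mul_le_mul_right _ h1)).trans_eq (pow_add _ _ _).symm
  have := mul_pw n 1 41 100 (by norm_num)
  have := one_pw n 41
  rw [cloner, List.length_cons]
  exact le_trans (Nat.succ_le_succ h7) (by omega)

end Size

theorem diag_gen (G W : ℕ → (List Bool → Bool) → Prop)
    (hG : ∀ n, ∃ b, ∀ A A' : List Bool → Bool, (∀ s, s.length < b → A s = A' s) → G n A → G n A')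
    (A0 : List Bool → Bool) (h0 : ∀ n, G n A0)
    (step : ∀ k A b, (∀ n, G n A) → ∃ (A' : List Bool → Bool) (b' : ℕ), (∀ n, G n A') ∧ b < b' ∧
      (∀ s, s.length < b → A' s = A s) ∧
      ∀ A'' : List Bool → Bool, (∀ s, s.length < b' → A'' s = A' s) → W k A'') :
    ∃ A : List Bool → Bool, (∀ n, G n A) ∧ ∀ k, W k A := by
  have step' : ∀ k, ∀ z : {z : (List Bool → Bool) × ℕ // ∀ n, G n z.1},
      ∃ z' : {z : (List Bool → Bool) × ℕ // ∀ n, G n z.1}, z.1.2 < z'.1.2 ∧
      (∀ s, s.length < z.1.2 → z'.1.1 s = z.1.1 s) ∧ ∀ A'' : List Bool → Bool,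
        (∀ s, s.length < z'.1.2 → A'' s = z'.1.1 s) → W k A'' := by
    intro k z
    obtain ⟨A', b', h1, h3, h4, h5⟩ := step k z.1.1 z.1.2 z.2
    exact ⟨⟨(A', b'), h1⟩, h3, h4, h5⟩
  choose nx n1 n2 n3 using step'
  let σ : ℕ → {z : (List Bool → Bool) × ℕ // ∀ n, G n z.1} := fun k =>
    Nat.rec ⟨(A0, 0), h0⟩ (fun k z => nx k z) k
  have hs : ∀ k, σ (k + 1) = nx k (σ k) := fun _ => rfl
  have mono : StrictMono fun k => (σ k).1.2 := strictMono_nat_of_lt_succ fun k => n1 k (σ k)
  have stab : ∀ j k s, j ≤ k → s.length < (σ j).1.2 → (σ k).1.1 s = (σ j).1.1 s := by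
    intro j k s hjk hm
    induction k, hjk using Nat.le_induction with
    | base => rfl
    | succ k hjk ih => rw [hs, n2 k (σ k) s (hm.trans_le (mono.monotone hjk)), ih]
  have lim : ∀ k s, s.length < (σ k).1.2 → (σ (s.length + 1)).1.1 s = (σ k).1.1 s := by
    intro k s hm
    have h1 : s.length < (σ (s.length + 1)).1.2 :=
      lt_of_lt_of_le (Nat.lt_succ_self _) (mono.le_apply (x := s.length + 1))
    rcases le_total (s.length + 1) k with h | h
    · exact (stab _ _ s h h1).symm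
    · exact stab _ _ s h hm
  refine ⟨fun s => (σ (s.length + 1)).1.1 s, fun n => ?_, fun k => n3 k (σ k) _ (lim (k + 1))⟩
  obtain ⟨b, hb⟩ := hG n
  exact hb _ _ (fun s h => (lim b s (h.trans_le mono.le_apply)).symm) ((σ b).2 n)

lemma yes_no_congr {n : ℕ} {A A' : List Bool → Bool}
    (h1 : ∀ v, run A (verifier n) v = run A' (verifier n) v)
    (h2 : ∀ v, run A (cloner n) v = run A' (cloner n) v) :
    (Yes A n ↔ Yes A' n) ∧ (No A n ↔ No A' n) := by
  have e1 : ∀ w : (Wit n → Bool) → ℂ, accept A w = accept A' w := fun w => by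
    rw [accept, accept, final_eq, final_eq, h1]
  have e2 : ∀ w : (Wit n → Bool) → ℂ, fidelity A w = fidelity A' w := fun w => by
    rw [fidelity, fidelity, final_eq, final_eq, h2]
  simp only [Yes, No, e1, e2, and_self]

lemma congr_len (n : ℕ) : ∃ b, ∀ A A' : List Bool → Bool, (∀ s, s.length < b → A s = A' s) →
    (Yes A n ↔ Yes A' n) ∧ (No A n ↔ No A' n) := by
  obtain ⟨b, hb⟩ := run_congr (verifier n)
  obtain ⟨b', hb'⟩ := run_congr (cloner n)
  exact ⟨max b b', fun A A' h => yes_no_congr (hb A A' fun s hs => h s (lt_max_of_lt_left hs))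
    (hb' A A' fun s hs => h s (lt_max_of_lt_right hs))⟩

lemma congr_idx {n : ℕ} {A A' : List Bool → Bool} (h : ∀ s, idx s = n → A s = A' s) :
    (Yes A n ↔ Yes A' n) ∧ (No A n ↔ No A' n) := by
  have e : ∀ gs : List (Gate (Wire n)), (∀ g ∈ gs, Ok n g) → ∀ v, run A gs v = run A' gs v :=
    fun gs hg => run_local gs fun l t hl s hs => h s (by
      obtain ⟨ν, k, -, h2⟩ := (hg _ hl).2 l t rfl
      rw [idx, hs, h2, Nat.unpair_pair, Nat.unpair_pair])
  exact yes_no_congr (e _ verifier_ok) (e _ cloner_ok)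

lemma not_yes_of_no {A : List Bool → Bool} {n : ℕ} (hn : 2 ≤ n) (h : No A n) : ¬ Yes A n := by
  rintro ⟨w, h1, h2, -⟩
  have h3 : (1 / 2 ^ n : ℝ) ≤ 1 / 2 ^ 2 :=
    one_div_le_one_div_of_le (by positivity) (pow_le_pow_right₀ (by norm_num) hn)
  linarith [h _ (nsq_unif h1)]

theorem diag (V : ℕ → List Bool → Verifier) (hu : ∀ k x, (V k x).Valid)
    (hc : ∀ k, ∃ N, ∀ x : List Bool, N ≤ x.length → (V k x).p + (V k x).queries < 2 ^ x.length) :
    ∃ A : List Bool → Bool, (∀ n, Yes A n ∨ No A n) ∧ ∀ k N, ∃ x : List Bool, N ≤ x.length ∧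
      Err (V k x) A (Yes A x.length) (¬ Yes A x.length) := by
  obtain ⟨A, h1, h2⟩ := diag_gen (fun n A => Yes A n ∨ No A n)
    (fun j A => ∃ x : List Bool, (Nat.unpair j).2 ≤ x.length ∧
      Err (V (Nat.unpair j).1 x) A (Yes A x.length) (¬ Yes A x.length))
    (fun n => (congr_len n).imp fun b hb A A' h => Or.imp (hb A A' h).1.1 (hb A A' h).2.1)
    (fun _ => false) (fun n => Or.inr (Tab.no (enc := fun _ _ => false) (dec := fun _ _ => false)
      (lab := fun _ _ _ => false) (T := ∅)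
      ⟨fun _ _ => rfl, fun _ _ => rfl, fun _ _ _ => rfl, fun _ _ => by simp⟩ (by simp)))
    (fun j A b hA => by
      obtain ⟨N, hN⟩ := hc (Nat.unpair j).1
      obtain ⟨x, hx⟩ : ∃ x : List Bool, x.length = 32 + N + b + (Nat.unpair j).2 :=
        ⟨_, List.length_replicate (a := false)⟩
      obtain ⟨A', h3, h4⟩ := finite_bound (n := x.length) (by omega) _ (hu _ x) (hN x (by omega)) A
      obtain ⟨b1, hb1⟩ := congr_len x.length
      obtain ⟨b2, hb2⟩ := run_congr (V (Nat.unpair j).1 x).gates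
      refine ⟨A', max (b + 1) (max b1 b2), fun n => ?_, by omega, fun s hs => h3 s ?_,
        fun A'' h5 => ⟨x, by omega, ?_⟩⟩
      · by_cases hn : n = x.length
        · exact hn ▸ h4.imp And.left And.left
        · have := congr_idx (A := A) (A' := A') (n := n) fun s hs => (h3 s (by omega)).symm
          exact (hA n).imp this.1.1 this.2.1
      · have := (Nat.unpair_left_le _).trans (Nat.unpair_left_le s.length)
        rw [idx]
        omega
      · have h6 := hb1 A'' A' fun s hs => h5 s (by omega)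
        have h7 := hb2 A'' A' fun s hs => h5 s (by omega)
        simp only [Err, accProb_eq, h7, h6.1] at h4 ⊢
        exact h4.imp_right fun h => ⟨not_yes_of_no (by omega) h.1, h.2⟩)
  exact ⟨A, h1, fun k N => by simpa only [Nat.unpair_pair] using h2 (Nat.pair k N)⟩

end Pool.Agent.MP_36f78e_lc.H75C
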